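import Mathlib

/-! Numerical core: only one of the two players leaves the recurrent pair of states. -/

set_option autoImplicit false

namespace Pool.Agent.H781R3

theorem case_num (ε Ua Va Ud Vd Udd Vdd u v Uzz Vzz Uh1 Vh1 Uh2 Vh2 Uz Vz Ug1 Vg1 Ug2 Vg2 : ℝ)
    (x1 x2 y π1 π2 q ψ1 ψ2 : ℝ) (hε : 0 < ε) (hε1 : ε ≤ 1/100000)
    (a1 : 2/9 - 2 * ε ≤ Ua) (a2 : Ua ≤ 2/9 + 10 * ε) (a3 : 5/9 - 2 * ε ≤ Va)
    (a4 : Va ≤ 5/9 + 10 * ε)
    (d1 : 1/3 - ε ≤ Ud) (d2 : 2/3 - ε ≤ Vd) (e1 : Vdd ≤ 1/3 + ε) (e2 : Udd ≤ 1)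
    (huv : u + v ≤ 1)
    (hx1 : 0 ≤ x1) (hx2 : 0 ≤ x2) (hx : 0 < x1 + x2)
    (ru : (x1 + x2) * u = x1 * Ua + x2 * Uzz) (rv : (x1 + x2) * v = x1 * Va + x2 * Vzz)
    (r1 : Ua ≤ u + ε) (hVzz : Vzz ≤ 1)
    (hy1 : y ≤ 1) (z1 : Uzz = y * Uh1 + (1 - y) * Udd)
    (z2 : Vzz = y * Vh1 + (1 - y) * Vdd) (z3 : Vh1 ≤ Vzz + ε)
    (hπ1' : π1 ≤ 1) (h1 : Uh1 = π1 * Uh2 + (1 - π1) * u)
    (h2 : Vh1 = π1 * Vh2 + (1 - π1) * v) (h3 : Vh2 + 2 * v ≤ 3 * Vh1 + 3 * ε)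
    (hπ2 : 0 ≤ π2) (hπ2' : π2 ≤ 1) (h4 : Uh2 = (1 - π2) * u)
    (h5 : Vh2 = π2 + (1 - π2) * v) (h6 : 1 + 2 * v ≤ 3 * Vh2 + 3 * ε)
    (hq0 : 0 ≤ q) (hq1 : q ≤ 1) (w1 : Uz = q * Ug1 + (1 - q) * Ud)
    (w2 : Vz = q * Vg1 + (1 - q) * Vd) (w3 : Ud ≤ Uz + ε) (hVg1 : 0 ≤ Vg1)
    (g1 : Ug1 = ψ1 * Ug2 + (1 - ψ1) * u)
    (g2 : Vg1 = ψ1 * Vg2 + (1 - ψ1) * v) (g3 : Vg2 + 2 * v ≤ 3 * Vg1 + 3 * ε)
    (g4 : Ug2 = ψ2 + (1 - ψ2) * u)
    (g5 : Vg2 = (1 - ψ2) * v) (g6 : 2 * v ≤ 3 * Vg2 + 3 * ε)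
    (r2 : Vz ≤ v + ε) : False := by
  have s1 : 2/9 - 3 * ε ≤ u := by linarith
  have s2 : v ≤ 7/9 + 3 * ε := by linarith
  have s3 : 1/9 + 8/9 * v - 4/3 * ε ≤ Vh1 := by linarith
  have s4 : 1/9 + 8/9 * v - 7/3 * ε ≤ Vzz := by linarith
  have s5 : 1/50 ≤ Vzz - v := by linarith
  -- step 3
  have s6 : Va ≤ v := by
    by_contra hcon
    push Not at hcon
    have t1 : 0 ≤ x1 * (Va - v) := mul_nonneg hx1 (by linarith)
    have t2 : 0 ≤ x2 * (Vzz - v) := mul_nonneg hx2 (by linarith)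
    have t3 : x1 * (Va - v) + x2 * (Vzz - v) = 0 := by linarith
    have t4 : x1 * (Va - v) = 0 := by linarith
    have t5 : x2 * (Vzz - v) = 0 := by linarith
    rcases mul_eq_zero.mp t4 with h | h
    · rcases mul_eq_zero.mp t5 with h' | h'
      · linarith
      · linarith
    · linarith
  -- step 4
  have s7 : 1 - y ≤ 4 * ε := by
    by_contra hcon
    push Not at hcon
    have t1 : (1 - y) * (Vh1 - Vdd) ≤ ε := by
      have : (1 - y) * (Vh1 - Vdd) = Vh1 - Vzz := by rw [z2]; ring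
      linarith
    have t2 : (1/4 : ℝ) ≤ Vh1 - Vdd := by linarith
    have t3 : (1 - y) * (1/4) ≤ (1 - y) * (Vh1 - Vdd) :=
      mul_le_mul_of_nonneg_left t2 (by linarith)
    linarith
  -- step 5
  have s8 : Uh1 = (1 - π1 * π2) * u := by rw [h1, h4]; ring
  have s9 : Vh1 = v + (π1 * π2) * (1 - v) := by rw [h2, h5]; ring
  have s10 : 1/9 - 7 * ε ≤ π1 * π2 := by
    by_contra hcon
    push Not at hcon
    have t1 : (1/9 - π1 * π2) * (1 - v) ≤ 4/3 * ε := by linarith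
    have t2 : (7 * ε) * (1/5) ≤ (1/9 - π1 * π2) * (1 - v) :=
      mul_le_mul (by linarith) (by linarith) (by norm_num) (by linarith)
    linarith
  have u1 : u ≤ 1 := by linarith
  have u0 : 0 ≤ u := by linarith
  have s11 : Uh1 ≤ 8/9 * u + 7 * ε := by
    have t1 : (1 - π1 * π2) * u ≤ (8/9 + 7 * ε) * u :=
      mul_le_mul_of_nonneg_right (by linarith) u0
    have t2 : ε * u ≤ ε * 1 := mul_le_mul_of_nonneg_left u1 hε.le
    linarith
  have s11' : 0 ≤ Uh1 := by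
    rw [s8]
    apply mul_nonneg _ u0
    have : π1 * π2 ≤ 1 := by
      calc π1 * π2 ≤ 1 * 1 := mul_le_mul hπ1' hπ2' hπ2 (by norm_num)
        _ = 1 := by norm_num
    linarith
  -- step 6
  have s12 : Uzz ≤ 8/9 * u + 11 * ε := by
    have t1 : Uzz = Uh1 + (1 - y) * (Udd - Uh1) := by rw [z1]; ring
    have t2 : (1 - y) * (Udd - Uh1) ≤ (1 - y) * 1 :=
      mul_le_mul_of_nonneg_left (by linarith) (by linarith)
    linarith
  -- step 7
  have s13 : x2 * (1/50) ≤ x1 * (Ua - u) := by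
    have t1 : x1 * (Ua - u) = x2 * (u - Uzz) := by linarith
    rw [t1]
    exact mul_le_mul_of_nonneg_left (by linarith) hx2
  have s14 : x1 * (Ua - u) ≤ x1 * ε := mul_le_mul_of_nonneg_left (by linarith) hx1
  have s15 : x2 ≤ 50 * ε * x1 := by linarith
  have s16 : 0 < x1 := by
    rcases hx1.eq_or_lt with h | h
    · rw [← h] at s15 hx
      linarith
    · exact h
  have s17 : u ≤ Ua := by
    by_contra hcon
    push Not at hcon
    have : x1 * (Ua - u) < 0 := mul_neg_of_pos_of_neg s16 (by linarith)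
    linarith
  -- step 8
  have s18 : v ≤ 5/9 + 60 * ε := by
    have t1 : x1 * (v - Va) = x2 * (Vzz - v) := by linarith
    have t2 : x2 * (Vzz - v) ≤ x2 * 1 := mul_le_mul_of_nonneg_left (by linarith) hx2
    have t3 : x1 * (v - Va - 50 * ε) ≤ 0 := by linarith
    have t4 : v - Va - 50 * ε ≤ 0 := by
      by_contra hcon
      push Not at hcon
      have := mul_pos s16 hcon
      linarith
    linarith
  -- step 9
  have s19 : Vg1 = (1 - ψ1 * ψ2) * v := by rw [g2, g5]; ring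
  have s20 : Ug1 = u + (ψ1 * ψ2) * (1 - u) := by rw [g1, g4]; ring
  have s21 : ψ1 * ψ2 ≤ 1/9 + 3 * ε := by
    by_contra hcon
    push Not at hcon
    have t1 : (ψ1 * ψ2 - 1/9) * v ≤ 4/3 * ε := by linarith
    have t2 : (3 * ε) * (1/2) ≤ (ψ1 * ψ2 - 1/9) * v :=
      mul_le_mul (by linarith) (by linarith) (by norm_num) (by linarith)
    linarith
  have s22 : Ug1 ≤ 25/81 + 12 * ε := by
    have t1 : (ψ1 * ψ2) * (1 - u) ≤ (1/9 + 3 * ε) * (1 - u) :=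
      mul_le_mul_of_nonneg_right s21 (by linarith)
    have t2 : ε * (1 - u) ≤ ε * 1 := mul_le_mul_of_nonneg_left (by linarith) hε.le
    linarith
  -- step 10
  have s23 : q ≤ 50 * ε := by
    by_contra hcon
    push Not at hcon
    have t1 : q * (Ud - Ug1) ≤ ε := by
      have : q * (Ud - Ug1) = Ud - Uz := by rw [w1]; ring
      linarith
    have t2 : q * (1/50) ≤ q * (Ud - Ug1) := mul_le_mul_of_nonneg_left (by linarith) hq0
    linarith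
  -- step 11
  have s24 : (1 - 50 * ε) * (2/3 - ε) ≤ (1 - q) * Vd :=
    mul_le_mul (by linarith) d2 (by linarith) (by linarith)
  have s25 : 0 ≤ q * Vg1 := mul_nonneg hq0 hVg1
  have s26 : ε * ε ≤ ε * (1/100000) := mul_le_mul_of_nonneg_left hε1 hε.le
  nlinarith

end Pool.Agent.H781R3
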