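import Pool.Agent.H781R3.DetMain

/-!
The deterministic game has no stationary epsilon-equilibrium that works from every state.
-/

set_option autoImplicit false

namespace Pool.Agent.H781R3

open Q

theorem unif_nonneg : ∀ k : Fin 3, (0:ℝ) ≤ (![1/3, 1/3, 1/3] : Fin 3 → ℝ) k := by
  intro k; fin_cases k <;> simp

theorem unif_sum : ∑ k : Fin 3, (![1/3, 1/3, 1/3] : Fin 3 → ℝ) k = 1 := by
  rw [Fin.sum_univ_three]; simp; norm_num

theorem p0_nonneg : ∀ k : Fin 3, (0:ℝ) ≤ (![1, 0, 0] : Fin 3 → ℝ) k := by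
  intro k; fin_cases k <;> simp

theorem p0_sum : ∑ k : Fin 3, (![1, 0, 0] : Fin 3 → ℝ) k = 1 := by
  rw [Fin.sum_univ_three]; simp

theorem p1_nonneg : ∀ k : Fin 3, (0:ℝ) ≤ (![0, 1, 0] : Fin 3 → ℝ) k := by
  intro k; fin_cases k <;> simp

theorem p1_sum : ∑ k : Fin 3, (![0, 1, 0] : Fin 3 → ℝ) k = 1 := by
  rw [Fin.sum_univ_three]; simp

theorem p2_nonneg : ∀ k : Fin 3, (0:ℝ) ≤ (![0, 0, 1] : Fin 3 → ℝ) k := by
  intro k; fin_cases k <;> simp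

theorem p2_sum : ∑ k : Fin 3, (![0, 0, 1] : Fin 3 → ℝ) k = 1 := by
  rw [Fin.sum_univ_three]; simp

theorem no_equilibrium (σ τ : Q → Fin 3 → ℝ) (hσ : Valid σ) (hτ : Valid τ)
    (ne1 : ∀ σ' : Q → Fin 3 → ℝ, Valid σ' → ∀ s,
      gval nx σ' τ {t1} s ≤ gval nx σ τ {t1} s + 1/100000)
    (ne2 : ∀ τ' : Q → Fin 3 → ℝ, Valid τ' → ∀ s,
      gval nx σ τ' {t2} s ≤ gval nx σ τ {t2} s + 1/100000) : False := by
  -- one-shot inequalities
  have os1 : ∀ (ρ : Fin 3 → ℝ), (∀ k, 0 ≤ ρ k) → ∑ k, ρ k = 1 → ∀ s, s ∉ ({t1} : Set Q) →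
      gL nx (fun _ => ρ) τ (gval nx σ τ {t1}) s ≤ gval nx σ τ {t1} s + 1/100000 := by
    intro ρ h0 h1 s hs
    exact one_shot₁ nx σ τ hσ hτ {t1} (1/100000) (by norm_num) ne1 s hs ρ h0 h1
  have os2 : ∀ (ρ : Fin 3 → ℝ), (∀ k, 0 ≤ ρ k) → ∑ k, ρ k = 1 → ∀ s, s ∉ ({t2} : Set Q) →
      gL nx σ (fun _ => ρ) (gval nx σ τ {t2}) s ≤ gval nx σ τ {t2} s + 1/100000 := by
    intro ρ h0 h1 s hs
    exact one_shot₂ nx σ τ hσ hτ {t2} (1/100000) (by norm_num) ne2 s hs ρ h0 h1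
  have vu := const_valid _ unif_nonneg unif_sum
  have v0 := const_valid _ p0_nonneg p0_sum
  have v1 := const_valid _ p1_nonneg p1_sum
  have v2 := const_valid _ p2_nonneg p2_sum
  obtain ⟨-, -, c0, c1, cT, cf, cm⟩ := gval_full nx σ τ hσ hτ {t1}
  obtain ⟨-, -, d0, d1, dT, df, dm⟩ := gval_full nx σ τ hσ hτ {t2}
  obtain ⟨k1, k2, k3⟩ := term1 σ τ hσ hτ
  obtain ⟨m1, m2, m3⟩ := term2 σ τ hσ hτ
  have sumle := sum_le σ τ hσ hτ
  have pmn := pm_nonneg σ τ hσ hτ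
  have pml := pm_le σ τ hσ hτ
  have hD1 := fun h => dev1_value τ hτ h
  have hD2 := fun h => dev2_value σ hσ h
  have hS1 := fun hX hY => stay_value σ τ hσ hτ hX hY {t1} (Or.inl rfl)
  have hS2 := fun hX hY => stay_value σ τ hσ hτ hX hY {t2} (Or.inr rfl)
  have hN1 := ne1 dev1 dev1_valid r1
  have hN2 := ne2 dev2 dev2_valid r1
  -- uniform mixing against a third of each action
  have pu1 : ∀ s, pm (fun _ => ![1/3, 1/3, 1/3]) τ s = 1/3 := by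
    intro s
    have := hτ.2 s
    rw [Fin.sum_univ_three] at this
    simp [pm]; linarith
  have pu2 : ∀ s, pm σ (fun _ => ![1/3, 1/3, 1/3]) s = 1/3 := by
    intro s
    have := hσ.2 s
    rw [Fin.sum_univ_three] at this
    simp [pm]; linarith
  -- fixed point equations, player 1
  have U_r1 := cf r1 (by simp)
  have U_r2 := cf r2 (by simp)
  have U_a := cf a (by simp)
  have U_b := cf b (by simp)
  have U_n := cf n (by simp)
  have U_z := cf z (by simp)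
  have U_zz := cf zz (by simp)
  have U_g1 := cf g1 (by simp)
  have U_g2 := cf g2 (by simp)
  have U_h1 := cf h1 (by simp)
  have U_h2 := cf h2 (by simp)
  have U_d := cf d (by simp)
  have U_dd := cf dd (by simp)
  rw [gL_r1 _ _ hσ hτ] at U_r1
  rw [gL_r2 _ _ hσ hτ] at U_r2
  rw [gL_a _ _ hσ hτ, k2] at U_a
  rw [gL_b _ _ hσ hτ, k1] at U_b
  rw [gL_n _ _ hσ hτ, k1, k2, k3] at U_n
  rw [gL_z _ _ hσ hτ] at U_z
  rw [gL_zz _ _ hσ hτ] at U_zz
  rw [gL_g1 _ _ hσ hτ] at U_g1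
  rw [gL_g2 _ _ hσ hτ, k1] at U_g2
  rw [gL_h1 _ _ hσ hτ] at U_h1
  rw [gL_h2 _ _ hσ hτ, k2] at U_h2
  rw [gL_d _ _ hσ hτ, k1, k2] at U_d
  rw [gL_dd _ _ hσ hτ, k1, k2] at U_dd
  -- fixed point equations, player 2
  have V_r1 := df r1 (by simp)
  have V_r2 := df r2 (by simp)
  have V_a := df a (by simp)
  have V_b := df b (by simp)
  have V_n := df n (by simp)
  have V_z := df z (by simp)
  have V_zz := df zz (by simp)
  have V_g1 := df g1 (by simp)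
  have V_g2 := df g2 (by simp)
  have V_h1 := df h1 (by simp)
  have V_h2 := df h2 (by simp)
  have V_d := df d (by simp)
  have V_dd := df dd (by simp)
  rw [gL_r1 _ _ hσ hτ] at V_r1
  rw [gL_r2 _ _ hσ hτ] at V_r2
  rw [gL_a _ _ hσ hτ, m1] at V_a
  rw [gL_b _ _ hσ hτ, m2] at V_b
  rw [gL_n _ _ hσ hτ, m1, m2, m3] at V_n
  rw [gL_z _ _ hσ hτ] at V_z
  rw [gL_zz _ _ hσ hτ] at V_zz
  rw [gL_g1 _ _ hσ hτ] at V_g1
  rw [gL_g2 _ _ hσ hτ, m2] at V_g2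
  rw [gL_h1 _ _ hσ hτ] at V_h1
  rw [gL_h2 _ _ hσ hτ, m1] at V_h2
  rw [gL_d _ _ hσ hτ, m1, m2] at V_d
  rw [gL_dd _ _ hσ hτ, m1, m2] at V_dd
  -- one-shot, player 1
  have O_a := os1 _ unif_nonneg unif_sum a (by simp)
  have O_b := os1 _ unif_nonneg unif_sum b (by simp)
  have O_g1 := os1 _ unif_nonneg unif_sum g1 (by simp)
  have O_g2 := os1 _ unif_nonneg unif_sum g2 (by simp)
  have O_h1 := os1 _ unif_nonneg unif_sum h1 (by simp)
  have O_h2 := os1 _ unif_nonneg unif_sum h2 (by simp)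
  have O_d := os1 _ unif_nonneg unif_sum d (by simp)
  have O_dd := os1 _ unif_nonneg unif_sum dd (by simp)
  rw [gL_a _ _ vu hτ, k2, pu1] at O_a
  rw [gL_b _ _ vu hτ, k1, pu1] at O_b
  rw [gL_g1 _ _ vu hτ, pu1] at O_g1
  rw [gL_g2 _ _ vu hτ, k1, pu1] at O_g2
  rw [gL_h1 _ _ vu hτ, pu1] at O_h1
  rw [gL_h2 _ _ vu hτ, k2, pu1] at O_h2
  rw [gL_d _ _ vu hτ, k1, k2, pu1] at O_d
  rw [gL_dd _ _ vu hτ, k1, k2, pu1] at O_dd
  have O_n0 := os1 _ p0_nonneg p0_sum n (by simp)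
  have O_n1 := os1 _ p1_nonneg p1_sum n (by simp)
  have O_n2 := os1 _ p2_nonneg p2_sum n (by simp)
  rw [gL_n _ _ v0 hτ, k1, k2, k3] at O_n0
  rw [gL_n _ _ v1 hτ, k1, k2, k3] at O_n1
  rw [gL_n _ _ v2 hτ, k1, k2, k3] at O_n2
  have O_z0 := os1 _ p0_nonneg p0_sum z (by simp)
  have O_z1 := os1 _ p1_nonneg p1_sum z (by simp)
  rw [gL_z _ _ v0 hτ] at O_z0
  rw [gL_z _ _ v1 hτ] at O_z1
  have O_r1 := os1 _ p1_nonneg p1_sum r1 (by simp)
  have O_r2 := os1 _ p2_nonneg p2_sum r1 (by simp)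
  rw [gL_r1 _ _ v1 hτ] at O_r1
  rw [gL_r1 _ _ v2 hτ] at O_r2
  simp at O_n0 O_n1 O_n2 O_z0 O_z1 O_r1 O_r2
  -- one-shot, player 2
  have P_a := os2 _ unif_nonneg unif_sum a (by simp)
  have P_b := os2 _ unif_nonneg unif_sum b (by simp)
  have P_g1 := os2 _ unif_nonneg unif_sum g1 (by simp)
  have P_g2 := os2 _ unif_nonneg unif_sum g2 (by simp)
  have P_h1 := os2 _ unif_nonneg unif_sum h1 (by simp)
  have P_h2 := os2 _ unif_nonneg unif_sum h2 (by simp)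
  have P_d := os2 _ unif_nonneg unif_sum d (by simp)
  have P_dd := os2 _ unif_nonneg unif_sum dd (by simp)
  rw [gL_a _ _ hσ vu, m1, pu2] at P_a
  rw [gL_b _ _ hσ vu, m2, pu2] at P_b
  rw [gL_g1 _ _ hσ vu, pu2] at P_g1
  rw [gL_g2 _ _ hσ vu, m2, pu2] at P_g2
  rw [gL_h1 _ _ hσ vu, pu2] at P_h1
  rw [gL_h2 _ _ hσ vu, m1, pu2] at P_h2
  rw [gL_d _ _ hσ vu, m1, m2, pu2] at P_d
  rw [gL_dd _ _ hσ vu, m1, m2, pu2] at P_dd
  have P_n0 := os2 _ p0_nonneg p0_sum n (by simp)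
  have P_n1 := os2 _ p1_nonneg p1_sum n (by simp)
  have P_n2 := os2 _ p2_nonneg p2_sum n (by simp)
  rw [gL_n _ _ hσ v0, m1, m2, m3] at P_n0
  rw [gL_n _ _ hσ v1, m1, m2, m3] at P_n1
  rw [gL_n _ _ hσ v2, m1, m2, m3] at P_n2
  have P_z0 := os2 _ p0_nonneg p0_sum zz (by simp)
  have P_z1 := os2 _ p1_nonneg p1_sum zz (by simp)
  rw [gL_zz _ _ hσ v0] at P_z0
  rw [gL_zz _ _ hσ v1] at P_z1
  have P_r1 := os2 _ p1_nonneg p1_sum r2 (by simp)
  have P_r2 := os2 _ p2_nonneg p2_sum r2 (by simp)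
  rw [gL_r2 _ _ hσ v1] at P_r1
  rw [gL_r2 _ _ hσ v2] at P_r2
  simp at P_n0 P_n1 P_n2 P_z0 P_z1 P_r1 P_r2
  -- distributions
  have Sr1 := hσ.2 r1
  have Sr2 := hτ.2 r2
  have Sn := hσ.2 n
  have Sn' := hτ.2 n
  have Sz := hσ.2 z
  have Szz := hτ.2 zz
  rw [Fin.sum_univ_three] at Sr1 Sr2 Sn Sn' Sz Szz
  have x0 := hσ.1 r1 0
  have x1 := hσ.1 r1 1
  have x2 := hσ.1 r1 2
  have y0 := hτ.1 r2 0
  have y1 := hτ.1 r2 1
  have y2 := hτ.1 r2 2
  have zp0 := hσ.1 z 0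
  have zp1 := hσ.1 z 1
  have zp2 := hσ.1 z 2
  have zq0 := hτ.1 zz 0
  have zq1 := hτ.1 zz 1
  have zq2 := hτ.1 zz 2
  -- the gadget `n`
  obtain ⟨n1, n2, n3, n4⟩ := rps_bounds (σ n 0) (σ n 1) (σ n 2) (τ n 0) (τ n 1) (τ n 2)
    (gval nx σ τ {t1} n) (gval nx σ τ {t2} n) (1/100000) (by norm_num) (by norm_num)
    (hσ.1 n 0) (hσ.1 n 1) (hσ.1 n 2) Sn (hτ.1 n 0) (hτ.1 n 1) (hτ.1 n 2) Sn'
    (by linarith) (by linarith) (by linarith) (by linarith) (by linarith)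
    (by linarith) (by linarith) (by linarith)
  obtain ⟨a1, a2, a3, a4⟩ := exit_bounds (pm σ τ a) (gval nx σ τ {t1} n) (gval nx σ τ {t2} n)
    (gval nx σ τ {t1} a) (gval nx σ τ {t2} a) (1/100000) (by norm_num) (by norm_num)
    (pmn a) (pml a) n1 n2 n3 n4 (by linarith) (by linarith) (by linarith) (by linarith)
  obtain ⟨b3, b4, b1, b2⟩ := exit_bounds (pm σ τ b) (gval nx σ τ {t2} n) (gval nx σ τ {t1} n)
    (gval nx σ τ {t2} b) (gval nx σ τ {t1} b) (1/100000) (by norm_num) (by norm_num)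
    (pmn b) (pml b) n3 n4 n1 n2 (by linarith) (by linarith) (by linarith) (by linarith)
  have sr1 := sumle r1
  have sr2 := sumle r2
  by_cases hX : 0 < σ r1 1 + σ r1 2
  · by_cases hY : 0 < τ r2 1 + τ r2 2
    · have e1 := hD1 hY
      have e2 := hD2 hX
      linarith
    · have hy1 : τ r2 1 = 0 := by linarith
      have hy2 : τ r2 2 = 0 := by linarith
      have hy0 : τ r2 0 = 1 := by linarith
      have eU : gval nx σ τ {t1} r2 = gval nx σ τ {t1} r1 := by rw [U_r2, hy0, hy1, hy2]; ring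
      have eV : gval nx σ τ {t2} r2 = gval nx σ τ {t2} r1 := by rw [V_r2, hy0, hy1, hy2]; ring
      have hx0 : σ r1 0 = 1 - σ r1 1 - σ r1 2 := by linarith
      rw [eU] at U_r1 U_h1 U_h2 O_h1 O_h2
      rw [eV] at V_r1 V_h1 V_h2 P_h1 P_h2 P_r2
      rw [hx0] at U_r1 V_r1
      exact case_num (1/100000) (gval nx σ τ {t1} a) (gval nx σ τ {t2} a) (gval nx σ τ {t1} d)
        (gval nx σ τ {t2} d) (gval nx σ τ {t1} dd) (gval nx σ τ {t2} dd)
        (gval nx σ τ {t1} r1) (gval nx σ τ {t2} r1) (gval nx σ τ {t1} zz) (gval nx σ τ {t2} zz)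
        (gval nx σ τ {t1} h1) (gval nx σ τ {t2} h1) (gval nx σ τ {t1} h2) (gval nx σ τ {t2} h2)
        (gval nx σ τ {t1} z) (gval nx σ τ {t2} z) (gval nx σ τ {t1} g1) (gval nx σ τ {t2} g1)
        (gval nx σ τ {t1} g2) (gval nx σ τ {t2} g2) (σ r1 1) (σ r1 2) (τ zz 0) (pm σ τ h1)
        (pm σ τ h2) (σ z 0) (pm σ τ g1) (pm σ τ g2) (by norm_num) (by norm_num)
        a1 a2 a3 a4 (by linarith) (by linarith) (by linarith) (c1 dd) sr1 x1 x2 hX
        (by linarith) (by linarith) (by linarith) (d1 zz) (by linarith) U_zz V_zz (by linarith)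
        (pml h1) U_h1 V_h1 (by linarith) (pmn h2) (pml h2) (by linarith) (by linarith)
        (by linarith) zp0 (by linarith) U_z V_z (by linarith) (d0 g1) U_g1 V_g1 (by linarith)
        (by linarith) (by linarith) (by linarith) (by linarith)
  · have hx1 : σ r1 1 = 0 := by linarith
    have hx2 : σ r1 2 = 0 := by linarith
    have hx0 : σ r1 0 = 1 := by linarith
    by_cases hY : 0 < τ r2 1 + τ r2 2
    · have eU : gval nx σ τ {t1} r1 = gval nx σ τ {t1} r2 := by rw [U_r1, hx0, hx1, hx2]; ring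
      have eV : gval nx σ τ {t2} r1 = gval nx σ τ {t2} r2 := by rw [V_r1, hx0, hx1, hx2]; ring
      have hy0 : τ r2 0 = 1 - τ r2 1 - τ r2 2 := by linarith
      rw [eU] at U_r2 U_g1 U_g2 O_g1 O_g2 O_r2
      rw [eV] at V_r2 V_g1 V_g2 P_g1 P_g2
      rw [hy0] at U_r2 V_r2
      exact case_num (1/100000) (gval nx σ τ {t2} b) (gval nx σ τ {t1} b) (gval nx σ τ {t2} dd)
        (gval nx σ τ {t1} dd) (gval nx σ τ {t2} d) (gval nx σ τ {t1} d)
        (gval nx σ τ {t2} r2) (gval nx σ τ {t1} r2) (gval nx σ τ {t2} z) (gval nx σ τ {t1} z)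
        (gval nx σ τ {t2} g1) (gval nx σ τ {t1} g1) (gval nx σ τ {t2} g2) (gval nx σ τ {t1} g2)
        (gval nx σ τ {t2} zz) (gval nx σ τ {t1} zz) (gval nx σ τ {t2} h1) (gval nx σ τ {t1} h1)
        (gval nx σ τ {t2} h2) (gval nx σ τ {t1} h2) (τ r2 1) (τ r2 2) (σ z 0) (pm σ τ g1)
        (pm σ τ g2) (τ zz 0) (pm σ τ h1) (pm σ τ h2) (by norm_num) (by norm_num)
        b3 b4 b1 b2 (by linarith) (by linarith) (by linarith) (d1 d) (by linarith) y1 y2 hY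
        (by linarith) (by linarith) (by linarith) (c1 z) (by linarith) V_z U_z (by linarith)
        (pml g1) V_g1 U_g1 (by linarith) (pmn g2) (pml g2) (by linarith) (by linarith)
        (by linarith) zq0 (by linarith) V_zz U_zz (by linarith) (c0 h1) V_h1 U_h1 (by linarith)
        (by linarith) (by linarith) (by linarith) (by linarith)
    · have hy1 : τ r2 1 = 0 := by linarith
      have hy2 : τ r2 2 = 0 := by linarith
      have e1 := (hS1 ⟨hx1, hx2⟩ ⟨hy1, hy2⟩).1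
      linarith

end Pool.Agent.H781R3
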