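import Pool.Agent.H781R3.OneShot

/-!
A deterministic concurrent two-player game with reachability objectives: sixteen states, three
actions for each player.
-/

set_option autoImplicit false

namespace Pool.Agent.H781R3

/-- The states. -/
inductive Q : Type
  | r1 | r2 | a | b | n | z | zz | g1 | g2 | h1 | h2 | d | dd | t1 | t2 | t0
  deriving DecidableEq, Fintype

open Q

/-- The transition function. -/
def nx : Q → Fin 3 → Fin 3 → Q
  | .r1, i, _ => if i = 0 then .r2 else if i = 1 then .a else .zz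
  | .r2, _, j => if j = 0 then .r1 else if j = 1 then .b else .z
  | .a, i, j => if i = j then .t2 else .n
  | .b, i, j => if i = j then .t1 else .n
  | .n, i, j => if j = i then .t0 else if j = i + 1 then .t1 else .t2
  | .z, i, _ => if i = 0 then .g1 else .d
  | .zz, _, j => if j = 0 then .h1 else .dd
  | .g1, i, j => if i = j then .g2 else .r1
  | .g2, i, j => if i = j then .t1 else .r1
  | .h1, i, j => if i = j then .h2 else .r2
  | .h2, i, j => if i = j then .t2 else .r2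
  | .d, i, j => if i = j then .t1 else .t2
  | .dd, i, j => if i = j then .t2 else .t1
  | .t1, _, _ => .t1
  | .t2, _, _ => .t2
  | .t0, _, _ => .t0

/-- probability that the two players choose the same action -/
noncomputable def pm (σ τ : Q → Fin 3 → ℝ) (s : Q) : ℝ :=
  σ s 0 * τ s 0 + σ s 1 * τ s 1 + σ s 2 * τ s 2

section
variable (σ τ : Q → Fin 3 → ℝ) (hσ : Valid σ) (hτ : Valid τ)
include hσ hτ

theorem sum3 (s : Q) : σ s 0 + σ s 1 + σ s 2 = 1 ∧ τ s 0 + τ s 1 + τ s 2 = 1 := by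
  have h1 := hσ.2 s
  have h2 := hτ.2 s
  rw [Fin.sum_univ_three] at h1 h2
  exact ⟨h1, h2⟩

theorem pm_nonneg (s : Q) : 0 ≤ pm σ τ s := by
  unfold pm
  have a0 := hσ.1 s 0
  have a1 := hσ.1 s 1
  have a2 := hσ.1 s 2
  have b0 := hτ.1 s 0
  have b1 := hτ.1 s 1
  have b2 := hτ.1 s 2
  positivity

theorem pm_le (s : Q) : pm σ τ s ≤ 1 := by
  unfold pm
  have a0 := hσ.1 s 0
  have a1 := hσ.1 s 1
  have a2 := hσ.1 s 2
  have b0 := hτ.1 s 0
  have b1 := hτ.1 s 1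
  have b2 := hτ.1 s 2
  obtain ⟨h1, h2⟩ := sum3 σ τ hσ hτ s
  have : (σ s 0 + σ s 1 + σ s 2) * (τ s 0 + τ s 1 + τ s 2) = 1 := by rw [h1, h2]; norm_num
  nlinarith [mul_nonneg a0 b1, mul_nonneg a0 b2, mul_nonneg a1 b0, mul_nonneg a1 b2,
    mul_nonneg a2 b0, mul_nonneg a2 b1]

theorem gL_match (s X Y : Q) (h : ∀ i j, nx s i j = if i = j then X else Y) (x : Q → ℝ) :
    gL nx σ τ x s = pm σ τ s * x X + (1 - pm σ τ s) * x Y := by
  obtain ⟨h1, h2⟩ := sum3 σ τ hσ hτ s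
  have e1 : σ s 0 = 1 - σ s 1 - σ s 2 := by linarith
  have e2 : τ s 0 = 1 - τ s 1 - τ s 2 := by linarith
  unfold gL pm
  simp only [h, Fin.sum_univ_three]
  simp
  rw [e1, e2]
  ring

theorem gL_c1 (s X Y Z : Q) (h : ∀ i j, nx s i j = if i = 0 then X else if i = 1 then Y else Z)
    (x : Q → ℝ) :
    gL nx σ τ x s = σ s 0 * x X + σ s 1 * x Y + σ s 2 * x Z := by
  obtain ⟨h1, h2⟩ := sum3 σ τ hσ hτ s
  have e2 : τ s 0 = 1 - τ s 1 - τ s 2 := by linarith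
  unfold gL
  simp only [h, Fin.sum_univ_three]
  simp
  rw [e2]
  ring

theorem gL_c2 (s X Y Z : Q) (h : ∀ i j, nx s i j = if j = 0 then X else if j = 1 then Y else Z)
    (x : Q → ℝ) :
    gL nx σ τ x s = τ s 0 * x X + τ s 1 * x Y + τ s 2 * x Z := by
  obtain ⟨h1, h2⟩ := sum3 σ τ hσ hτ s
  have e2 : σ s 0 = 1 - σ s 1 - σ s 2 := by linarith
  unfold gL
  simp only [h, Fin.sum_univ_three]
  simp
  rw [e2]
  ring

theorem gL_r1 (x : Q → ℝ) :
    gL nx σ τ x r1 = σ r1 0 * x r2 + σ r1 1 * x a + σ r1 2 * x zz :=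
  gL_c1 σ τ hσ hτ r1 r2 a zz (fun _ _ => rfl) x

theorem gL_r2 (x : Q → ℝ) :
    gL nx σ τ x r2 = τ r2 0 * x r1 + τ r2 1 * x b + τ r2 2 * x z :=
  gL_c2 σ τ hσ hτ r2 r1 b z (fun _ _ => rfl) x

theorem gL_z (x : Q → ℝ) :
    gL nx σ τ x z = σ z 0 * x g1 + (1 - σ z 0) * x d := by
  rw [gL_c1 σ τ hσ hτ z g1 d d (fun i _ => by simp [nx])]
  obtain ⟨h1, h2⟩ := sum3 σ τ hσ hτ z
  have e1 : σ z 0 = 1 - σ z 1 - σ z 2 := by linarith
  rw [e1]; ring

theorem gL_zz (x : Q → ℝ) :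
    gL nx σ τ x zz = τ zz 0 * x h1 + (1 - τ zz 0) * x dd := by
  rw [gL_c2 σ τ hσ hτ zz h1 dd dd (fun i _ => by simp [nx])]
  obtain ⟨h1, h2⟩ := sum3 σ τ hσ hτ zz
  have e1 : τ zz 0 = 1 - τ zz 1 - τ zz 2 := by linarith
  rw [e1]; ring

theorem gL_a (x : Q → ℝ) : gL nx σ τ x a = pm σ τ a * x t2 + (1 - pm σ τ a) * x n :=
  gL_match σ τ hσ hτ a t2 n (fun _ _ => rfl) x

theorem gL_b (x : Q → ℝ) : gL nx σ τ x b = pm σ τ b * x t1 + (1 - pm σ τ b) * x n :=
  gL_match σ τ hσ hτ b t1 n (fun _ _ => rfl) x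

theorem gL_g1 (x : Q → ℝ) : gL nx σ τ x g1 = pm σ τ g1 * x g2 + (1 - pm σ τ g1) * x r1 :=
  gL_match σ τ hσ hτ g1 g2 r1 (fun _ _ => rfl) x

theorem gL_g2 (x : Q → ℝ) : gL nx σ τ x g2 = pm σ τ g2 * x t1 + (1 - pm σ τ g2) * x r1 :=
  gL_match σ τ hσ hτ g2 t1 r1 (fun _ _ => rfl) x

theorem gL_h1 (x : Q → ℝ) : gL nx σ τ x h1 = pm σ τ h1 * x h2 + (1 - pm σ τ h1) * x r2 :=
  gL_match σ τ hσ hτ h1 h2 r2 (fun _ _ => rfl) x

theorem gL_h2 (x : Q → ℝ) : gL nx σ τ x h2 = pm σ τ h2 * x t2 + (1 - pm σ τ h2) * x r2 :=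
  gL_match σ τ hσ hτ h2 t2 r2 (fun _ _ => rfl) x

theorem gL_d (x : Q → ℝ) : gL nx σ τ x d = pm σ τ d * x t1 + (1 - pm σ τ d) * x t2 :=
  gL_match σ τ hσ hτ d t1 t2 (fun _ _ => rfl) x

theorem gL_dd (x : Q → ℝ) : gL nx σ τ x dd = pm σ τ dd * x t2 + (1 - pm σ τ dd) * x t1 :=
  gL_match σ τ hσ hτ dd t2 t1 (fun _ _ => rfl) x

theorem gL_n (x : Q → ℝ) : gL nx σ τ x n = pm σ τ n * x t0 +
    (σ n 0 * τ n 1 + σ n 1 * τ n 2 + σ n 2 * τ n 0) * x t1 +
    (σ n 0 * τ n 2 + σ n 1 * τ n 0 + σ n 2 * τ n 1) * x t2 := by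
  have hn : ∀ i j, nx n i j = if j = i then t0 else if j = i + 1 then t1 else t2 := fun _ _ => rfl
  unfold gL pm
  simp only [hn, Fin.sum_univ_three]
  have e1 : (0 : Fin 3) + 1 = 1 := rfl
  have e2 : (1 : Fin 3) + 1 = 2 := rfl
  have e3 : (2 : Fin 3) + 1 = 0 := rfl
  rw [e1, e2, e3]
  simp
  ring

theorem gL_t1 (x : Q → ℝ) : gL nx σ τ x t1 = x t1 := by
  rw [gL_match σ τ hσ hτ t1 t1 t1 (fun _ _ => by simp [nx])]; ring

theorem gL_t2 (x : Q → ℝ) : gL nx σ τ x t2 = x t2 := by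
  rw [gL_match σ τ hσ hτ t2 t2 t2 (fun _ _ => by simp [nx])]; ring

theorem gL_t0 (x : Q → ℝ) : gL nx σ τ x t0 = x t0 := by
  rw [gL_match σ τ hσ hτ t0 t0 t0 (fun _ _ => by simp [nx])]; ring

/-- terminal values for the target of player 1 -/
theorem term1 : gval nx σ τ {t1} t1 = 1 ∧ gval nx σ τ {t1} t2 = 0 ∧ gval nx σ τ {t1} t0 = 0 := by
  obtain ⟨-, -, c0, c1, cT, cf, cm⟩ := gval_full nx σ τ hσ hτ {t1}
  have h := cm (fun s => if s = t2 ∨ s = t0 then 0 else 1)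
    (fun s => by split_ifs <;> norm_num)
    (fun s hs => by rw [Set.mem_singleton_iff] at hs; subst hs; simp)
    (fun s hs => by
      by_cases h2 : s = t2
      · subst h2; rw [gL_t2 σ τ hσ hτ]
      · by_cases h0 : s = t0
        · subst h0; rw [gL_t0 σ τ hσ hτ]
        · have e : (if s = t2 ∨ s = t0 then (0:ℝ) else 1) = 1 := by simp [h2, h0]
          rw [e]
          exact (gL_mono nx σ τ hσ hτ _ (fun _ => 1) (fun s => by split_ifs <;> norm_num) s).trans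
            (gL_const nx σ τ hσ hτ 1 s).le)
  refine ⟨cT t1 rfl, le_antisymm ?_ (c0 _), le_antisymm ?_ (c0 _)⟩
  · simpa using h t2
  · simpa using h t0

/-- terminal values for the target of player 2 -/
theorem term2 : gval nx σ τ {t2} t2 = 1 ∧ gval nx σ τ {t2} t1 = 0 ∧ gval nx σ τ {t2} t0 = 0 := by
  obtain ⟨-, -, c0, c1, cT, cf, cm⟩ := gval_full nx σ τ hσ hτ {t2}
  have h := cm (fun s => if s = t1 ∨ s = t0 then 0 else 1)
    (fun s => by split_ifs <;> norm_num)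
    (fun s hs => by rw [Set.mem_singleton_iff] at hs; subst hs; simp)
    (fun s hs => by
      by_cases h2 : s = t1
      · subst h2; rw [gL_t1 σ τ hσ hτ]
      · by_cases h0 : s = t0
        · subst h0; rw [gL_t0 σ τ hσ hτ]
        · have e : (if s = t1 ∨ s = t0 then (0:ℝ) else 1) = 1 := by simp [h2, h0]
          rw [e]
          exact (gL_mono nx σ τ hσ hτ _ (fun _ => 1) (fun s => by split_ifs <;> norm_num) s).trans
            (gL_const nx σ τ hσ hτ 1 s).le)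
  refine ⟨cT t2 rfl, le_antisymm ?_ (c0 _), le_antisymm ?_ (c0 _)⟩
  · simpa using h t1
  · simpa using h t0

theorem gL_one_sub (x : Q → ℝ) (s : Q) :
    gL nx σ τ (fun t => 1 - x t) s = 1 - gL nx σ τ x s := by
  have h := gL_const nx σ τ hσ hτ 1 s
  have e : gL nx σ τ (fun t => 1 - x t) s = gL nx σ τ (fun _ => 1) s - gL nx σ τ x s := by
    unfold gL
    simp_rw [← Finset.sum_sub_distrib]
    apply Finset.sum_congr rfl; intro i _
    apply Finset.sum_congr rfl; intro j _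
    ring
  rw [e, h]

/-- The payoffs add up to at most one. -/
theorem sum_le (s : Q) : gval nx σ τ {t1} s + gval nx σ τ {t2} s ≤ 1 := by
  obtain ⟨-, -, c0, c1, cT, cf, cm⟩ := gval_full nx σ τ hσ hτ {t1}
  obtain ⟨-, -, d0, d1, dT, df, dm⟩ := gval_full nx σ τ hσ hτ {t2}
  obtain ⟨k1, k2, k3⟩ := term2 σ τ hσ hτ
  have h := cm (fun s => 1 - gval nx σ τ {t2} s)
    (fun s => by have := d1 s; linarith)
    (fun s hs => by rw [Set.mem_singleton_iff] at hs; subst hs; rw [k2]; norm_num)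
    (fun s hs => by
      have e : gL nx σ τ (fun s => 1 - gval nx σ τ {t2} s) s =
          1 - gL nx σ τ (gval nx σ τ {t2}) s := gL_one_sub σ τ hσ hτ _ s
      rw [e]
      by_cases h2 : s = t2
      · subst h2
        rw [gL_t2 σ τ hσ hτ]
      · rw [← df s h2])
  have := h s
  linarith

end

end Pool.Agent.H781R3
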