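import Mathlib

/-! Numerical core of the deterministic reachability counterexample. -/

set_option autoImplicit false

namespace Pool.Agent.H781R3

/-- near-uniqueness of the equilibrium of rock-paper-scissors -/
theorem rps_bounds (p0 p1 p2 q0 q1 q2 U V ε : ℝ) (hε : 0 ≤ ε) (hε1 : ε ≤ 1/1000)
    (hp0 : 0 ≤ p0) (hp1 : 0 ≤ p1) (hp2 : 0 ≤ p2) (hp : p0 + p1 + p2 = 1)
    (hq0 : 0 ≤ q0) (hq1 : 0 ≤ q1) (hq2 : 0 ≤ q2) (hq : q0 + q1 + q2 = 1)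
    (hU : U = p0 * q1 + p1 * q2 + p2 * q0) (hV : V = q0 * p1 + q1 * p2 + q2 * p0)
    (u0 : q0 ≤ U + ε) (u1 : q1 ≤ U + ε) (u2 : q2 ≤ U + ε)
    (v0 : p0 ≤ V + ε) (v1 : p1 ≤ V + ε) (v2 : p2 ≤ V + ε) :
    1/3 - ε ≤ U ∧ U ≤ 1/3 + 3 * ε ∧ 1/3 - ε ≤ V ∧ V ≤ 1/3 + 3 * ε := by
  have hU1 : 1/3 - ε ≤ U := by linarith
  have hV1 : 1/3 - ε ≤ V := by linarith
  -- product bounds
  have SU : p0 * (U + ε - q1) + p1 * (U + ε - q2) + p2 * (U + ε - q0) = ε := by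
    calc p0 * (U + ε - q1) + p1 * (U + ε - q2) + p2 * (U + ε - q0)
        = (p0 + p1 + p2) * (U + ε) - (p0 * q1 + p1 * q2 + p2 * q0) := by ring
      _ = ε := by rw [hp, ← hU]; ring
  have SV : q0 * (V + ε - p1) + q1 * (V + ε - p2) + q2 * (V + ε - p0) = ε := by
    calc q0 * (V + ε - p1) + q1 * (V + ε - p2) + q2 * (V + ε - p0)
        = (q0 + q1 + q2) * (V + ε) - (q0 * p1 + q1 * p2 + q2 * p0) := by ring
      _ = ε := by rw [hq, ← hV]; ring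
  have X0 := mul_nonneg hp0 (sub_nonneg.2 u1)
  have X1 := mul_nonneg hp1 (sub_nonneg.2 u2)
  have X2 := mul_nonneg hp2 (sub_nonneg.2 u0)
  have Y0 := mul_nonneg hq0 (sub_nonneg.2 v1)
  have Y1 := mul_nonneg hq1 (sub_nonneg.2 v2)
  have Y2 := mul_nonneg hq2 (sub_nonneg.2 v0)
  have A0 : p0 * (U + ε - q1) ≤ ε := by linarith
  have A1 : p1 * (U + ε - q2) ≤ ε := by linarith
  have A2 : p2 * (U + ε - q0) ≤ ε := by linarith
  have B0 : q0 * (V + ε - p1) ≤ ε := by linarith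
  have B1 : q1 * (V + ε - p2) ≤ ε := by linarith
  have B2 : q2 * (V + ε - p0) ≤ ε := by linarith
  have key : ∀ a x : ℝ, 1/4 ≤ a → a * x ≤ ε → x ≤ 4 * ε := by
    intro a x ha hx
    by_contra hcon
    push Not at hcon
    have : (1/4) * x ≤ a * x := mul_le_mul_of_nonneg_right ha (by linarith)
    linarith
  have P0 : 1/4 ≤ p0 → 1/4 ≤ q1 := fun h => by have := key _ _ h A0; linarith
  have P1 : 1/4 ≤ p1 → 1/4 ≤ q2 := fun h => by have := key _ _ h A1; linarith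
  have P2 : 1/4 ≤ p2 → 1/4 ≤ q0 := fun h => by have := key _ _ h A2; linarith
  have Q0 : 1/4 ≤ q0 → 1/4 ≤ p1 := fun h => by have := key _ _ h B0; linarith
  have Q1 : 1/4 ≤ q1 → 1/4 ≤ p2 := fun h => by have := key _ _ h B1; linarith
  have Q2 : 1/4 ≤ q2 → 1/4 ≤ p0 := fun h => by have := key _ _ h B2; linarith
  have all : (1/4 ≤ p0 ∧ 1/4 ≤ p1 ∧ 1/4 ≤ p2) ∧ (1/4 ≤ q0 ∧ 1/4 ≤ q1 ∧ 1/4 ≤ q2) := by
    have : 1/4 ≤ p0 ∨ 1/4 ≤ p1 ∨ 1/4 ≤ p2 := by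
      by_contra hcon
      push Not at hcon
      obtain ⟨h1, h2, h3⟩ := hcon
      linarith
    rcases this with h | h | h
    · have c1 := P0 h
      have c2 := Q1 c1
      have c3 := P2 c2
      have c4 := Q0 c3
      have c5 := P1 c4
      exact ⟨⟨h, c4, c2⟩, c3, c1, c5⟩
    · have c1 := P1 h
      have c2 := Q2 c1
      have c3 := P0 c2
      have c4 := Q1 c3
      have c5 := P2 c4
      exact ⟨⟨c2, h, c4⟩, c5, c3, c1⟩
    · have c1 := P2 h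
      have c2 := Q0 c1
      have c3 := P1 c2
      have c4 := Q2 c3
      have c5 := P0 c4
      exact ⟨⟨c4, c2, h⟩, c1, c5, c3⟩
  obtain ⟨⟨a0, a1, a2⟩, b0, b1, b2⟩ := all
  have D0 := key _ _ a0 A0
  have D1 := key _ _ a1 A1
  have D2 := key _ _ a2 A2
  have E0 := key _ _ b0 B0
  have E1 := key _ _ b1 B1
  have E2 := key _ _ b2 B2
  refine ⟨hU1, ?_, hV1, ?_⟩ <;> linarith

/-- bounds for the exit gadget `match -> win for the opponent, mismatch -> n`. -/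
theorem exit_bounds (π Un Vn Ua Va ε : ℝ) (hε : 0 ≤ ε) (hε1 : ε ≤ 1/1000)
    (hπ0 : 0 ≤ π) (hπ1 : π ≤ 1)
    (n1 : 1/3 - ε ≤ Un) (n2 : Un ≤ 1/3 + 3 * ε) (n3 : 1/3 - ε ≤ Vn) (n4 : Vn ≤ 1/3 + 3 * ε)
    (hU : Ua = (1 - π) * Un) (hV : Va = π + (1 - π) * Vn)
    (oU : 2 * Un ≤ 3 * Ua + 3 * ε) (oV : 1 + 2 * Vn ≤ 3 * Va + 3 * ε) :
    2/9 - 2 * ε ≤ Ua ∧ Ua ≤ 2/9 + 10 * ε ∧ 5/9 - 2 * ε ≤ Va ∧ Va ≤ 5/9 + 10 * ε := by
  have h1 : π ≤ 1/3 + 4 * ε := by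
    by_contra hcon
    push Not at hcon
    have : (1/3 + 4 * ε) * Un ≤ π * Un := mul_le_mul_of_nonneg_right hcon.le (by linarith)
    nlinarith
  have h2 : 1/3 - 2 * ε ≤ π := by
    by_contra hcon
    push Not at hcon
    have : π * (1 - Vn) ≤ (1/3 - 2 * ε) * (1 - Vn) := mul_le_mul_of_nonneg_right hcon.le (by linarith)
    nlinarith
  refine ⟨by linarith, ?_, by linarith, ?_⟩
  · have : (1 - π) * Un ≤ (2/3 + 2 * ε) * (1/3 + 3 * ε) :=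
      mul_le_mul (by linarith) n2 (by linarith) (by linarith)
    nlinarith
  · have : π * (1 - Vn) ≤ (1/3 + 4 * ε) * (1 - Vn) := mul_le_mul_of_nonneg_right h1 (by linarith)
    nlinarith

end Pool.Agent.H781R3
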