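import Pool.Agent.H781R3.DetGame
import Pool.Agent.H781R3.DetNum
import Pool.Agent.H781R3.DetCase

/-!
The deterministic game has no stationary epsilon-equilibrium that works from every state.
-/

set_option autoImplicit false

namespace Pool.Agent.H781R3

open Q

/-- a distribution used at every state -/
theorem const_valid (ρ : Fin 3 → ℝ) (h0 : ∀ a, 0 ≤ ρ a) (h1 : ∑ a, ρ a = 1) :
    Valid (fun _ : Q => ρ) := ⟨fun _ a => h0 a, fun _ => h1⟩

/-- the strategy of player 1 that never leaves at `r1`, moves on at `z` and mixes elsewhere -/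
noncomputable def dev1 : Q → Fin 3 → ℝ
  | .r1 => ![1, 0, 0]
  | .z => ![1, 0, 0]
  | _ => ![1/3, 1/3, 1/3]

/-- the strategy of player 2 that never leaves at `r2`, moves on at `zz` and mixes elsewhere -/
noncomputable def dev2 : Q → Fin 3 → ℝ
  | .r2 => ![1, 0, 0]
  | .zz => ![1, 0, 0]
  | _ => ![1/3, 1/3, 1/3]

theorem dev1_valid : Valid dev1 := by
  constructor
  · intro s a
    cases s <;> fin_cases a <;> simp [dev1]
  · intro s
    cases s <;> simp [dev1, Fin.sum_univ_three] <;> norm_num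

theorem dev2_valid : Valid dev2 := by
  constructor
  · intro s a
    cases s <;> fin_cases a <;> simp [dev2]
  · intro s
    cases s <;> simp [dev2, Fin.sum_univ_three] <;> norm_num

/-- what player 1 gets by never leaving, when player 2 leaves -/
theorem dev1_value (τ : Q → Fin 3 → ℝ) (hτ : Valid τ) (hY : 0 < τ r2 1 + τ r2 2) :
    5/9 ≤ gval nx dev1 τ {t1} r1 := by
  have hσ := dev1_valid
  obtain ⟨-, -, c0, c1, cT, cf, cm⟩ := gval_full nx dev1 τ hσ hτ {t1}
  obtain ⟨k1, k2, k3⟩ := term1 dev1 τ hσ hτ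
  have er1 := cf r1 (by simp)
  have er2 := cf r2 (by simp)
  have eb := cf b (by simp)
  have en := cf n (by simp)
  have ez := cf z (by simp)
  have eg1 := cf g1 (by simp)
  have eg2 := cf g2 (by simp)
  rw [gL_r1 _ _ hσ hτ] at er1
  rw [gL_r2 _ _ hσ hτ] at er2
  rw [gL_b _ _ hσ hτ, k1] at eb
  rw [gL_n _ _ hσ hτ, k1, k2, k3] at en
  rw [gL_z _ _ hσ hτ] at ez
  rw [gL_g1 _ _ hσ hτ] at eg1
  rw [gL_g2 _ _ hσ hτ, k1] at eg2
  have sn := hτ.2 n
  have sb := hτ.2 b
  have sg1 := hτ.2 g1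
  have sg2 := hτ.2 g2
  have sr2 := hτ.2 r2
  rw [Fin.sum_univ_three] at sn sb sg1 sg2 sr2
  have pb : pm dev1 τ b = 1/3 := by simp [pm, dev1]; linarith
  have pg1 : pm dev1 τ g1 = 1/3 := by simp [pm, dev1]; linarith
  have pg2 : pm dev1 τ g2 = 1/3 := by simp [pm, dev1]; linarith
  rw [pb] at eb
  rw [pg1] at eg1
  rw [pg2] at eg2
  simp [dev1] at er1 en ez
  have en' : gval nx dev1 τ {t1} n = 1/3 := by linarith
  have q1 := hτ.1 r2 1
  have q2 := hτ.1 r2 2
  have hw := c1 r1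
  generalize gval nx dev1 τ {t1} r1 = w at *
  generalize gval nx dev1 τ {t1} r2 = w2 at *
  generalize gval nx dev1 τ {t1} b = wb at *
  generalize gval nx dev1 τ {t1} n = wn at *
  generalize gval nx dev1 τ {t1} z = wz at *
  generalize gval nx dev1 τ {t1} g1 = wg1 at *
  generalize gval nx dev1 τ {t1} g2 = wg2 at *
  generalize τ r2 0 = y0 at *
  generalize τ r2 1 = y1 at *
  generalize τ r2 2 = y2 at *
  have hwb : wb = 5/9 := by linarith
  have hwz : wz = 8/9 * w + 1/9 := by linarith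
  have hy0 : y0 = 1 - y1 - y2 := by linarith
  subst hy0
  rw [hwb, hwz, ← er1] at er2
  have key : y1 * (w - 5/9) = y2 * ((1 - w)/9) := by linarith
  by_contra hcon
  push Not at hcon
  have t1 : y1 * (w - 5/9) ≤ 0 := mul_nonpos_of_nonneg_of_nonpos q1 (by linarith)
  have t2 : 0 ≤ y2 * ((1 - w)/9) := mul_nonneg q2 (by linarith)
  have t3 : y1 * (w - 5/9) = 0 := by linarith
  have t4 : y2 * ((1 - w)/9) = 0 := by linarith
  rcases mul_eq_zero.mp t3 with h | h
  · rcases mul_eq_zero.mp t4 with h' | h'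
    · linarith
    · linarith
  · linarith

/-- what player 2 gets by never leaving, when player 1 leaves -/
theorem dev2_value (σ : Q → Fin 3 → ℝ) (hσ : Valid σ) (hX : 0 < σ r1 1 + σ r1 2) :
    5/9 ≤ gval nx σ dev2 {t2} r1 := by
  have hτ := dev2_valid
  obtain ⟨-, -, c0, c1, cT, cf, cm⟩ := gval_full nx σ dev2 hσ hτ {t2}
  obtain ⟨k1, k2, k3⟩ := term2 σ dev2 hσ hτ
  have er1 := cf r1 (by simp)
  have er2 := cf r2 (by simp)
  have ea := cf a (by simp)
  have en := cf n (by simp)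
  have ez := cf zz (by simp)
  have eg1 := cf h1 (by simp)
  have eg2 := cf h2 (by simp)
  rw [gL_r1 _ _ hσ hτ] at er1
  rw [gL_r2 _ _ hσ hτ] at er2
  rw [gL_a _ _ hσ hτ, k1] at ea
  rw [gL_n _ _ hσ hτ, k1, k2, k3] at en
  rw [gL_zz _ _ hσ hτ] at ez
  rw [gL_h1 _ _ hσ hτ] at eg1
  rw [gL_h2 _ _ hσ hτ, k1] at eg2
  have sn := hσ.2 n
  have sb := hσ.2 a
  have sg1 := hσ.2 h1
  have sg2 := hσ.2 h2
  have sr1 := hσ.2 r1
  rw [Fin.sum_univ_three] at sn sb sg1 sg2 sr1
  have pb : pm σ dev2 a = 1/3 := by simp [pm, dev2]; linarith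
  have pg1 : pm σ dev2 h1 = 1/3 := by simp [pm, dev2]; linarith
  have pg2 : pm σ dev2 h2 = 1/3 := by simp [pm, dev2]; linarith
  rw [pb] at ea
  rw [pg1] at eg1
  rw [pg2] at eg2
  simp [dev2] at er2 en ez
  have en' : gval nx σ dev2 {t2} n = 1/3 := by linarith
  have q1 := hσ.1 r1 1
  have q2 := hσ.1 r1 2
  have hw := c1 r1
  generalize gval nx σ dev2 {t2} r1 = w at *
  generalize gval nx σ dev2 {t2} r2 = w2 at *
  generalize gval nx σ dev2 {t2} a = wb at *
  generalize gval nx σ dev2 {t2} n = wn at *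
  generalize gval nx σ dev2 {t2} zz = wz at *
  generalize gval nx σ dev2 {t2} h1 = wg1 at *
  generalize gval nx σ dev2 {t2} h2 = wg2 at *
  generalize σ r1 0 = y0 at *
  generalize σ r1 1 = y1 at *
  generalize σ r1 2 = y2 at *
  have hwb : wb = 5/9 := by linarith
  have hwz : wz = 8/9 * w + 1/9 := by linarith
  have hy0 : y0 = 1 - y1 - y2 := by linarith
  subst hy0
  rw [hwb, hwz, er2] at er1
  have key : y1 * (w - 5/9) = y2 * ((1 - w)/9) := by linarith
  by_contra hcon
  push Not at hcon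
  have t1 : y1 * (w - 5/9) ≤ 0 := mul_nonpos_of_nonneg_of_nonpos q1 (by linarith)
  have t2 : 0 ≤ y2 * ((1 - w)/9) := mul_nonneg q2 (by linarith)
  have t3 : y1 * (w - 5/9) = 0 := by linarith
  have t4 : y2 * ((1 - w)/9) = 0 := by linarith
  rcases mul_eq_zero.mp t3 with h | h
  · rcases mul_eq_zero.mp t4 with h' | h'
    · linarith
    · linarith
  · linarith

/-- if nobody ever leaves then the values at `r1` vanish -/
theorem stay_value (σ τ : Q → Fin 3 → ℝ) (hσ : Valid σ) (hτ : Valid τ)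
    (hX : σ r1 1 = 0 ∧ σ r1 2 = 0) (hY : τ r2 1 = 0 ∧ τ r2 2 = 0) (T : Set Q)
    (hT : T = {t1} ∨ T = {t2}) :
    gval nx σ τ T r1 ≤ 0 ∧ gval nx σ τ T r2 ≤ 0 := by
  obtain ⟨-, -, c0, c1, cT, cf, cm⟩ := gval_full nx σ τ hσ hτ T
  have h := cm (fun s => if s = r1 ∨ s = r2 then 0 else 1)
    (fun s => by split_ifs <;> norm_num)
    (fun s hs => by
      rcases hT with rfl | rfl <;> (rw [Set.mem_singleton_iff] at hs; subst hs; simp))
    (fun s hs => by
      by_cases h2 : s = r1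
      · subst h2; rw [gL_r1 σ τ hσ hτ, hX.1, hX.2]; simp
      · by_cases h0 : s = r2
        · subst h0; rw [gL_r2 σ τ hσ hτ, hY.1, hY.2]; simp
        · have e : (if s = r1 ∨ s = r2 then (0:ℝ) else 1) = 1 := by simp [h2, h0]
          rw [e]
          exact (gL_mono nx σ τ hσ hτ _ (fun _ => 1) (fun s => by split_ifs <;> norm_num) s).trans
            (gL_const nx σ τ hσ hτ 1 s).le)
  exact ⟨by simpa using h r1, by simpa using h r2⟩

end Pool.Agent.H781R3
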