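import Mathlib
import Pool.Agent.H781R3.ER0

/-!
Euclidean Ramsey theory through abstract squared-distance functions.

`RamC C V D`: there is a finite Euclidean configuration such that every colouring of it with
colour set `C` contains a monochromatic copy of the squared-distance function `D` on `V`.
-/

set_option autoImplicit false

namespace Pool.Agent.H781R3.ER

open Finset BigOperators

/-- squared distance -/
def q {ι : Type} [Fintype ι] (u v : ι → ℝ) : ℝ := ∑ i, (u i - v i) ^ 2

theorem q_self {ι : Type} [Fintype ι] (u : ι → ℝ) : q u u = 0 := by simp [q]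

theorem q_comm {ι : Type} [Fintype ι] (u v : ι → ℝ) : q u v = q v u := by
  unfold q
  exact Finset.sum_congr rfl fun i _ => by ring

theorem q_nonneg {ι : Type} [Fintype ι] (u v : ι → ℝ) : 0 ≤ q u v :=
  Finset.sum_nonneg fun i _ => sq_nonneg _

theorem q_sumElim {ι κ : Type} [Fintype ι] [Fintype κ] (u v : ι → ℝ) (u' v' : κ → ℝ) :
    q (Sum.elim u u') (Sum.elim v v') = q u v + q u' v' := by
  simp [q, Fintype.sum_sum_type]

/-- every `C`-colouring of some finite configuration contains a monochromatic copy -/
def RamC (C V : Type) (D : V → V → ℝ) : Prop :=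
  ∃ (ι F : Type) (_ : Fintype ι) (_ : Finite F) (p : F → ι → ℝ),
    ∀ c : F → C, ∃ g : V → F, (∀ x y, q (p (g x)) (p (g y)) = D x y) ∧ ∀ x y, c (g x) = c (g y)

def Ram (V : Type) (D : V → V → ℝ) : Prop := ∀ (C : Type) [Finite C], RamC C V D

theorem RamC.comap {C V W : Type} {D : V → V → ℝ} (h : RamC C V D) (φ : W → V) :
    RamC C W (fun x y => D (φ x) (φ y)) := by
  obtain ⟨ι, F, hι, hF, p, hp⟩ := h
  refine ⟨ι, F, hι, hF, p, fun c => ?_⟩
  obtain ⟨g, hg1, hg2⟩ := hp c
  exact ⟨g ∘ φ, fun x y => hg1 _ _, fun x y => hg2 _ _⟩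

theorem RamC.congr {C V : Type} {D D' : V → V → ℝ} (h : RamC C V D) (e : ∀ x y, D x y = D' x y) :
    RamC C V D' := by
  have : D = D' := by funext x y; exact e x y
  rwa [this] at h

theorem Ram.congr {V : Type} {D D' : V → V → ℝ} (h : Ram V D) (e : ∀ x y, D x y = D' x y) :
    Ram V D' := fun C _ => (h C).congr e

theorem Ram.comap {V W : Type} {D : V → V → ℝ} (h : Ram V D) (φ : W → V) :
    Ram W (fun x y => D (φ x) (φ y)) := fun C _ => (h C).comap φ

theorem Ram.smul {V : Type} {D : V → V → ℝ} (h : Ram V D) {t : ℝ} (ht : 0 ≤ t) :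
    Ram V (fun x y => t * D x y) := by
  intro C _
  obtain ⟨ι, F, hι, hF, p, hp⟩ := h C
  refine ⟨ι, F, hι, hF, fun f i => Real.sqrt t * p f i, fun c => ?_⟩
  obtain ⟨g, hg1, hg2⟩ := hp c
  refine ⟨g, fun x y => ?_, hg2⟩
  show q (fun i => Real.sqrt t * p (g x) i) (fun i => Real.sqrt t * p (g y) i) = t * D x y
  rw [← hg1 x y]
  unfold q
  rw [Finset.mul_sum]
  refine Finset.sum_congr rfl fun i _ => ?_
  rw [← mul_sub, mul_pow, Real.sq_sqrt ht]

theorem Ram.prod {V W : Type} {D : V → V → ℝ} {D' : W → W → ℝ} (h : Ram V D) (h' : Ram W D') :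
    Ram (V × W) (fun x y => D x.1 y.1 + D' x.2 y.2) := by
  intro C _
  obtain ⟨ι2, F2, hι2, hF2, p2, hp2⟩ := h' C
  obtain ⟨ι1, F1, hι1, hF1, p1, hp1⟩ := h (F2 → C)
  refine ⟨ι1 ⊕ ι2, F1 × F2, inferInstance, inferInstance,
    fun f => Sum.elim (p1 f.1) (p2 f.2), fun c => ?_⟩
  obtain ⟨g1, hg1, hg1'⟩ := hp1 (fun f1 f2 => c (f1, f2))
  rcases isEmpty_or_nonempty V with hV | ⟨⟨v0⟩⟩
  · exact ⟨fun x => (hV.false x.1).elim, fun x => (hV.false x.1).elim,
      fun x => (hV.false x.1).elim⟩
  obtain ⟨g2, hg2, hg2'⟩ := hp2 (fun f2 => c (g1 v0, f2))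
  refine ⟨fun x => (g1 x.1, g2 x.2), fun x y => ?_, fun x y => ?_⟩
  · rw [q_sumElim, hg1, hg2]
  · have h1 : ∀ (x : V) (f2 : F2), c (g1 x, f2) = c (g1 v0, f2) := fun x f2 =>
      congrFun (hg1' x v0) f2
    show c (g1 x.1, g2 x.2) = c (g1 y.1, g2 y.2)
    rw [h1, h1 y.1]
    exact hg2' _ _

theorem Ram.add {V : Type} {D D' : V → V → ℝ} (h : Ram V D) (h' : Ram V D') :
    Ram V (fun x y => D x y + D' x y) :=
  (h.prod h').comap (fun x => (x, x))

theorem Ram.zero {V : Type} : Ram V (fun _ _ => 0) := by
  intro C _
  refine ⟨Empty, Unit, inferInstance, inferInstance, fun _ _ => 0, fun c => ?_⟩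
  exact ⟨fun _ => (), fun x y => q_self _, fun _ _ => rfl⟩

theorem Ram.sum {V I : Type} (s : Finset I) (D : I → V → V → ℝ) (h : ∀ i ∈ s, Ram V (D i)) :
    Ram V (fun x y => ∑ i ∈ s, D i x y) := by
  classical
  induction s using Finset.induction_on with
  | empty => exact Ram.zero.congr (fun x y => by simp)
  | insert a s ha ih =>
    have h1 := h a (Finset.mem_insert_self _ _)
    have h2 := ih (fun i hi => h i (Finset.mem_insert_of_mem hi))
    exact (h1.add h2).congr (fun x y => by rw [Finset.sum_insert ha])

/-- cut (semi)metrics are Ramsey -/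
theorem Ram.cut {V : Type} (χ : V → Bool) {t : ℝ} (ht : 0 ≤ t) :
    Ram V (fun x y => if χ x = χ y then 0 else t) := by
  intro C _
  classical
  let n := Nat.card C
  let s := Real.sqrt (t / 2)
  have hs : s ^ 2 = t / 2 := Real.sq_sqrt (by positivity)
  refine ⟨Fin (n + 1), Fin (n + 1), inferInstance, inferInstance,
    fun f i => if f = i then s else 0, fun c => ?_⟩
  have hq : ∀ f f' : Fin (n + 1), f ≠ f' →
      q (fun i => if f = i then s else 0) (fun i => if f' = i then s else 0) = t := by
    intro f f' hff
    have : ∀ i : Fin (n + 1), ((if f = i then s else 0) - (if f' = i then s else 0)) ^ 2 =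
        (if f = i then s ^ 2 else 0) + (if f' = i then s ^ 2 else 0) := by
      intro i
      by_cases h1 : f = i
      · have h2 : f' ≠ i := fun h => hff (h1.trans h.symm)
        simp [h1, h2]
      · by_cases h2 : f' = i
        · simp [h1, h2]
        · simp [h1, h2]
    unfold q
    rw [Finset.sum_congr rfl (fun i _ => this i), Finset.sum_add_distrib]
    simp [hs]
  haveI := Fintype.ofFinite C
  obtain ⟨f, f', hff, hc⟩ := Fintype.exists_ne_map_eq_of_card_lt c (by
    rw [Fintype.card_fin, ← Nat.card_eq_fintype_card (α := C)]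
    exact Nat.lt_succ_self _)
  refine ⟨fun v => if χ v then f else f', fun x y => ?_, fun x y => ?_⟩
  · by_cases hx : χ x = true <;> by_cases hy : χ y = true
    · simp only [hx, hy, if_true]
      exact q_self _
    · have hy' : χ y = false := by simpa using hy
      simp only [hx, hy', if_true]
      simpa using hq f f' hff
    · have hx' : χ x = false := by simpa using hx
      simp only [hx', hy, if_true]
      simpa using hq f' f hff.symm
    · have hx' : χ x = false := by simpa using hx
      have hy' : χ y = false := by simpa using hy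
      simp only [hx', hy', if_true]
      exact q_self _
  · by_cases hx : χ x = true <;> by_cases hy : χ y = true <;> simp [hx, hy, hc]

/-- Spreads: shifts of a fixed vector are Ramsey (from Ramsey's theorem). -/
theorem Ram.spread {V : Type} (K S : ℕ) (a : ℕ → ℝ) (idx : V → ℕ) (hidx : ∀ v, idx v ≤ S) :
    Ram V (fun x y => q (ι := Fin (K + S))
      (fun j => if idx x ≤ j ∧ (j : ℕ) < idx x + K then a (j - idx x) else 0)
      (fun j => if idx y ≤ j ∧ (j : ℕ) < idx y + K then a (j - idx y) else 0)) := by
  intro C _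
  classical
  rcases isEmpty_or_nonempty C with hC | hC
  · exact ⟨Empty, Unit, inferInstance, inferInstance, fun _ _ => 0,
      fun c => (hC.false (c ())).elim⟩
  haveI := Fintype.ofFinite C
  obtain ⟨N, hN⟩ := ramsey_gen C K (K + S)
  refine ⟨Fin N, Fin K → Fin N, inferInstance, inferInstance,
    fun x m => ∑ l : Fin K, if x l = m then a l else 0, fun c => ?_⟩
  let col : List ℕ → C := fun l =>
    if h : ∃ x : Fin K → Fin N, l = List.ofFn (fun i => (x i : ℕ)) then c h.choose
    else Classical.arbitrary C
  have hcol : ∀ x : Fin K → Fin N, col (List.ofFn (fun i => (x i : ℕ))) = c x := by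
    intro x
    have h : ∃ x' : Fin K → Fin N,
        List.ofFn (fun i => (x i : ℕ)) = List.ofFn (fun i => (x' i : ℕ)) := ⟨x, rfl⟩
    have h1 : col (List.ofFn (fun i => (x i : ℕ))) = c h.choose := by
      simp only [col]
      rw [dif_pos h]
    rw [h1]
    congr 1
    have h2 := h.choose_spec
    have h3 := List.ofFn_injective h2
    funext i
    exact Fin.ext (congrFun h3 i).symm
  obtain ⟨T, hT, hTc, k, hk⟩ := hN (Finset.range N) col (by simp)
  let e := T.orderEmbOfFin hTc
  have he : ∀ j, e j < N := fun j =>
    Finset.mem_range.mp (hT (Finset.orderEmbOfFin_mem _ _ _))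
  have hlt : ∀ (v : V) (l : Fin K), (l : ℕ) + idx v < K + S := fun v l => by
    have := hidx v; have := l.2; omega
  let g : V → (Fin K → Fin N) := fun v l => ⟨e ⟨l + idx v, hlt v l⟩, he _⟩
  refine ⟨g, fun x y => ?_, ?_⟩
  · -- coordinates
    have key : ∀ (v : V) (j : Fin (K + S)),
        (∑ l : Fin K, if g v l = (⟨e j, he j⟩ : Fin N) then a l else 0) =
          if idx v ≤ j ∧ (j : ℕ) < idx v + K then a (j - idx v) else 0 := by
      intro v j
      have h1 : ∀ l : Fin K, (g v l = (⟨e j, he j⟩ : Fin N)) ↔ (l : ℕ) + idx v = j := by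
        intro l
        simp only [g, Fin.mk.injEq]
        constructor
        · intro h
          have := e.injective h
          exact congrArg Fin.val this
        · intro h
          exact congrArg e (Fin.ext (by simpa using h))
      by_cases hj : idx v ≤ j ∧ (j : ℕ) < idx v + K
      · rw [if_pos hj]
        rw [Finset.sum_eq_single (⟨j - idx v, by omega⟩ : Fin K)]
        · rw [if_pos ((h1 _).2 (by simp only; omega))]
        · intro l _ hl
          rw [if_neg]
          intro h
          apply hl
          apply Fin.ext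
          have := (h1 l).1 h
          simp only
          omega
        · intro h
          exact absurd (Finset.mem_univ _) h
      · rw [if_neg hj]
        apply Finset.sum_eq_zero
        intro l _
        rw [if_neg]
        intro h
        apply hj
        have := (h1 l).1 h
        have := l.2
        omega
    have hinj : Function.Injective (fun j : Fin (K + S) => (⟨e j, he j⟩ : Fin N)) := by
      intro j j' h
      exact e.injective (Fin.mk.inj_iff.mp h)
    unfold q
    symm
    apply Fintype.sum_of_injective _ hinj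
    · intro m hm
      have h0 : ∀ v : V, (∑ l : Fin K, if g v l = m then a l else 0) = 0 := by
        intro v
        apply Finset.sum_eq_zero
        intro l _
        rw [if_neg]
        intro h
        exact hm ⟨⟨l + idx v, hlt v l⟩, h⟩
      show ((∑ l : Fin K, if g x l = m then a l else 0) -
        (∑ l : Fin K, if g y l = m then a l else 0)) ^ 2 = 0
      rw [h0, h0]
      simp
    · intro j
      simp only [key]
  · have h1 : ∀ v, c (g v) = k := by
      intro v
      rw [← hcol]
      apply hk
      · simp
      · rw [List.pairwise_ofFn]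
        intro i j hij
        exact e.strictMono (by
          show (⟨i + idx v, hlt v i⟩ : Fin (K + S)) < ⟨j + idx v, hlt v j⟩
          rw [Fin.mk_lt_mk]
          have : (i : ℕ) < j := hij
          omega)
      · intro x hx
        rw [List.mem_ofFn] at hx
        obtain ⟨i, rfl⟩ := hx
        exact Finset.orderEmbOfFin_mem _ _ _
    intro x y
    rw [h1, h1]

end Pool.Agent.H781R3.ER
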