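import Mathlib
import Pool.Agent.H781R3.ER1

/-!
Finite Euclidean configurations are approximated by Ramsey ones (shifts of a long tent function
are almost collinear).
-/

set_option autoImplicit false

namespace Pool.Agent.H781R3.ER

open Finset BigOperators

/-- integer tent function with peak `m` at `m` -/
def tent (m : ℕ) (i : ℤ) : ℤ := max 0 (min i (2 * m - i))

/-- second difference -/
def dd (m : ℕ) (j : ℤ) : ℤ := tent m j - 2 * tent m (j - 1) + tent m (j - 2)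

theorem tent_diff (m : ℕ) (j : ℤ) :
    (tent m (j - 1) - tent m j) ^ 2 = if 1 ≤ j ∧ j ≤ 2 * m then 1 else 0 := by
  unfold tent
  have h : (1 ≤ j ∧ j ≤ m → max 0 (min (j - 1) (2 * m - (j - 1))) - max 0 (min j (2 * m - j)) = -1)
      ∧ (m + 1 ≤ j ∧ j ≤ 2 * m →
        max 0 (min (j - 1) (2 * m - (j - 1))) - max 0 (min j (2 * m - j)) = 1)
      ∧ (j ≤ 0 ∨ 2 * m + 1 ≤ j →
        max 0 (min (j - 1) (2 * m - (j - 1))) - max 0 (min j (2 * m - j)) = 0) := by
    refine ⟨?_, ?_, ?_⟩ <;> intro h <;> omega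
  obtain ⟨h1, h2, h3⟩ := h
  by_cases ha : 1 ≤ j ∧ j ≤ m
  · rw [h1 ha, if_pos ⟨ha.1, by omega⟩]; norm_num
  · by_cases hb : (m : ℤ) + 1 ≤ j ∧ j ≤ 2 * m
    · rw [h2 hb, if_pos ⟨by omega, hb.2⟩]; norm_num
    · rw [h3 (by omega), if_neg (by omega)]; norm_num

theorem dd_sq (m : ℕ) (j : ℤ) :
    (dd m j) ^ 2 ≤ (if j = 1 then 4 else 0) + (if j = m + 1 then 4 else 0) +
      (if j = 2 * m + 1 then 4 else 0) := by
  have h1 : -2 ≤ dd m j ∧ dd m j ≤ 2 := by
    unfold dd tent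
    constructor <;> omega
  have h0 : j ≠ 1 → j ≠ m + 1 → j ≠ 2 * m + 1 → dd m j = 0 := by
    intro ha hb hc
    unfold dd tent
    omega
  have h4 : (dd m j) ^ 2 ≤ 4 := by nlinarith [h1.1, h1.2]
  by_cases ha : j = 1
  · rw [if_pos ha]
    have : (0:ℤ) ≤ (if j = m + 1 then 4 else 0) := by split_ifs <;> norm_num
    have : (0:ℤ) ≤ (if j = 2 * m + 1 then 4 else 0) := by split_ifs <;> norm_num
    omega
  · by_cases hb : j = m + 1
    · rw [if_neg ha, if_pos hb]
      have : (0:ℤ) ≤ (if j = 2 * m + 1 then 4 else 0) := by split_ifs <;> norm_num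
      omega
    · by_cases hc : j = 2 * m + 1
      · rw [if_neg ha, if_neg hb, if_pos hc]; omega
      · rw [h0 ha hb hc, if_neg ha, if_neg hb, if_neg hc]; norm_num

theorem sum_ind_le (L : ℕ) (i : ℕ) (c : ℤ) :
    ∑ j : Fin L, (if (j : ℤ) - i = c then (4 : ℤ) else 0) ≤ 4 := by
  rw [← Finset.sum_filter, Finset.sum_const, nsmul_eq_mul]
  have : (Finset.univ.filter (fun j : Fin L => (j : ℤ) - i = c)).card ≤ 1 := by
    rw [Finset.card_le_one]
    intro a ha b hb
    rw [Finset.mem_filter] at ha hb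
    apply Fin.ext
    have h1 := ha.2
    have h2 := hb.2
    omega
  have h2 : ((Finset.univ.filter (fun j : Fin L => (j : ℤ) - i = c)).card : ℤ) ≤ 1 := by
    exact_mod_cast this
  linarith

theorem sum_dd_le (m L i : ℕ) : ∑ j : Fin L, (dd m ((j : ℤ) - i)) ^ 2 ≤ 12 := by
  calc ∑ j : Fin L, (dd m ((j : ℤ) - i)) ^ 2
      ≤ ∑ j : Fin L, ((if (j : ℤ) - i = 1 then (4 : ℤ) else 0) +
          (if (j : ℤ) - i = m + 1 then 4 else 0) + (if (j : ℤ) - i = 2 * m + 1 then 4 else 0)) :=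
        Finset.sum_le_sum fun j _ => dd_sq m _
    _ ≤ 12 := by
        rw [Finset.sum_add_distrib, Finset.sum_add_distrib]
        have h1 := sum_ind_le L i 1
        have h2 := sum_ind_le L i (m + 1)
        have h3 := sum_ind_le L i (2 * m + 1)
        linarith

/-- the error of linear extrapolation -/
theorem err_eq (m s : ℕ) (j : ℤ) :
    tent m (j - s) - tent m j - s * (tent m (j - 1) - tent m j) =
      ∑ i ∈ range s, ((s : ℤ) - 1 - i) * dd m (j - i) := by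
  induction s generalizing j with
  | zero => simp
  | succ s ih =>
    rw [Finset.sum_range_succ']
    have h := ih (j - 1)
    have e1 : ∀ i : ℕ, (((s + 1 : ℕ) : ℤ) - 1 - ((i + 1 : ℕ) : ℤ)) * dd m (j - ((i + 1 : ℕ) : ℤ)) =
        ((s : ℤ) - 1 - i) * dd m (j - 1 - i) := by
      intro i
      have : j - ((i + 1 : ℕ) : ℤ) = j - 1 - i := by push_cast; ring
      rw [this]
      push_cast
      ring
    rw [Finset.sum_congr rfl (fun i _ => e1 i), ← h]
    have e2 : j - ((s + 1 : ℕ) : ℤ) = j - 1 - s := by push_cast; ring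
    have e3 : j - 1 - 1 = j - 2 := by ring
    rw [e2, e3]
    unfold dd
    push_cast
    have e4 : j - 0 = j := by ring
    rw [e4]
    ring

theorem err_le (m s L : ℕ) :
    ∑ j : Fin L, (tent m ((j : ℤ) - s) - tent m j - s * (tent m ((j : ℤ) - 1) - tent m j)) ^ 2 ≤
      12 * (s : ℤ) ^ 4 := by
  calc ∑ j : Fin L, (tent m ((j : ℤ) - s) - tent m j -
          s * (tent m ((j : ℤ) - 1) - tent m j)) ^ 2
      = ∑ j : Fin L, (∑ i ∈ range s, ((s : ℤ) - 1 - i) * dd m ((j : ℤ) - i)) ^ 2 :=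
        Finset.sum_congr rfl fun j _ => by rw [err_eq]
    _ ≤ ∑ j : Fin L, (s : ℤ) * ∑ i ∈ range s, (s : ℤ) ^ 2 * (dd m ((j : ℤ) - i)) ^ 2 := by
        refine Finset.sum_le_sum fun j _ => ?_
        have h1 := sq_sum_le_card_mul_sum_sq (s := range s)
          (f := fun i : ℕ => ((s : ℤ) - 1 - i) * dd m ((j : ℤ) - i))
        rw [card_range] at h1
        refine h1.trans ?_
        refine mul_le_mul_of_nonneg_left ?_ (by positivity)
        refine Finset.sum_le_sum fun i hi => ?_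
        rw [mul_pow]
        refine mul_le_mul_of_nonneg_right ?_ (sq_nonneg _)
        rw [mem_range] at hi
        have : (0 : ℤ) ≤ (s : ℤ) - 1 - i := by omega
        nlinarith
    _ = (s : ℤ) ^ 3 * ∑ i ∈ range s, ∑ j : Fin L, (dd m ((j : ℤ) - i)) ^ 2 := by
        rw [← Finset.mul_sum, Finset.sum_comm]
        simp_rw [← Finset.mul_sum]
        ring
    _ ≤ (s : ℤ) ^ 3 * ∑ i ∈ range s, (12 : ℤ) := by
        refine mul_le_mul_of_nonneg_left ?_ (by positivity)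
        exact Finset.sum_le_sum fun i _ => sum_dd_le m L i
    _ = 12 * (s : ℤ) ^ 4 := by
        rw [Finset.sum_const, card_range, nsmul_eq_mul]
        ring

theorem diff_sum (m L : ℕ) (hL : 2 * m + 1 ≤ L) :
    ∑ j : Fin L, (tent m ((j : ℤ) - 1) - tent m j) ^ 2 = 2 * (m : ℤ) := by
  have e : ∑ j : Fin L, (tent m ((j : ℤ) - 1) - tent m j) ^ 2 =
      ∑ j : Fin L, (if 1 ≤ (j : ℤ) ∧ (j : ℤ) ≤ 2 * m then (1 : ℤ) else 0) :=
    Finset.sum_congr rfl (fun j _ => tent_diff m (j : ℤ))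
  rw [e, ← Finset.sum_filter, Finset.sum_const, nsmul_eq_mul, mul_one]
  have : (Finset.univ.filter (fun j : Fin L => 1 ≤ (j : ℤ) ∧ (j : ℤ) ≤ 2 * m)).card = 2 * m := by
    have h : (Finset.univ.filter (fun j : Fin L => 1 ≤ (j : ℤ) ∧ (j : ℤ) ≤ 2 * m)).map
        Fin.valEmbedding = Finset.Icc 1 (2 * m) := by
      ext x
      simp only [Finset.mem_map, Finset.mem_filter, Finset.mem_univ, true_and,
        Fin.valEmbedding_apply, Finset.mem_Icc]
      constructor
      · rintro ⟨a, ha, rfl⟩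
        omega
      · intro hx
        exact ⟨⟨x, by omega⟩, by simp only; omega, rfl⟩
    rw [← Finset.card_map, h, Nat.card_Icc]
    omega
  rw [this]
  push_cast
  ring

/-- shifted tents as real vectors -/
theorem spread_tent (m L s : ℕ) (j : Fin L) :
    (if s ≤ (j : ℕ) ∧ (j : ℕ) < s + 2 * m then ((tent m ((j : ℕ) - s : ℕ) : ℤ) : ℝ) else 0) =
      (tent m ((j : ℤ) - s) : ℝ) := by
  by_cases h : s ≤ (j : ℕ) ∧ (j : ℕ) < s + 2 * m
  · rw [if_pos h]
    have : (((j : ℕ) - s : ℕ) : ℤ) = (j : ℤ) - s := by omega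
    rw [this]
  · rw [if_neg h]
    have : tent m ((j : ℤ) - s) = 0 := by
      unfold tent
      omega
    rw [this]
    norm_num

/-- One-dimensional configurations are approximated by Ramsey configurations. -/
theorem approx_line {F : Type} [Finite F] (f : F → ℝ) {ε : ℝ} (hε : 0 < ε) :
    ∃ (κ : Type) (_ : Fintype κ) (α b : F → κ → ℝ),
      (∀ w w', q (b w) (b w') = 2 * (f w - f w') ^ 2) ∧ (∀ w, q (α w) (b w) ≤ ε) ∧
      Ram F (fun w w' => q (α w) (α w')) := by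
  obtain ⟨B, hB⟩ : ∃ B : ℕ, ∀ w, |f w| ≤ B := by
    obtain ⟨B0, hB0⟩ := (Set.finite_range (fun w => |f w|)).bddAbove
    obtain ⟨B, hB⟩ := exists_nat_ge B0
    exact ⟨B, fun w => (hB0 ⟨w, rfl⟩).trans hB⟩
  obtain ⟨M0, hM0⟩ := exists_nat_ge ((384 * (B : ℝ) ^ 4 + 4) / ε)
  let M : ℕ := M0 + 1
  have hM1 : (1 : ℝ) ≤ M := by simp [M]
  have hMpos : (0 : ℝ) < M := by linarith
  have hMε : (384 * (B : ℝ) ^ 4 + 4) / (M : ℝ) ^ 2 ≤ ε := by
    rw [div_le_iff₀ (by positivity)]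
    have h1 : 384 * (B : ℝ) ^ 4 + 4 ≤ ε * M0 := by
      rw [div_le_iff₀ hε] at hM0
      linarith
    have h2 : (M0 : ℝ) ≤ (M : ℝ) ^ 2 := by
      have : (M : ℝ) = M0 + 1 := by simp [M]
      rw [this]
      have : (0 : ℝ) ≤ M0 := Nat.cast_nonneg _
      nlinarith
    nlinarith
  let m : ℕ := M ^ 4
  let S : ℕ := 2 * M * B + 1
  let s : F → ℕ := fun w => ⌊(M : ℝ) * (f w + B)⌋₊
  have hfB : ∀ w, 0 ≤ f w + B ∧ f w + B ≤ 2 * B := fun w => by
    have := abs_le.mp (hB w)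
    constructor <;> linarith [this.1, this.2]
  have hs1 : ∀ w, (s w : ℝ) ≤ M * (f w + B) := fun w =>
    Nat.floor_le (mul_nonneg hMpos.le (hfB w).1)
  have hs2 : ∀ w, (M : ℝ) * (f w + B) < s w + 1 := fun w => Nat.lt_floor_add_one _
  have hs3 : ∀ w, (s w : ℝ) ≤ 2 * M * B := fun w => by
    have := hs1 w
    nlinarith [(hfB w).2]
  have hsS : ∀ w, s w ≤ S := fun w => by
    have : (s w : ℝ) ≤ ((2 * M * B : ℕ) : ℝ) := by push_cast; exact hs3 w
    have : s w ≤ 2 * M * B := by exact_mod_cast this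
    show s w ≤ 2 * M * B + 1
    omega
  let L : ℕ := 2 * m + S
  have hL : 2 * m + 1 ≤ L := by
    show 2 * m + 1 ≤ 2 * m + (2 * M * B + 1)
    omega
  let β : ℝ := 1 / (M : ℝ) ^ 3
  let α : F → Fin L → ℝ := fun w j => β * (tent m ((j : ℤ) - s w) : ℝ)
  let b : F → Fin L → ℝ := fun w j => β * (tent m (j : ℤ) : ℝ) +
    (f w + B) * M * β * ((tent m ((j : ℤ) - 1) : ℝ) - (tent m (j : ℤ) : ℝ))
  have hds : ∑ j : Fin L, ((tent m ((j : ℤ) - 1) : ℝ) - (tent m (j : ℤ) : ℝ)) ^ 2 =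
      2 * (M : ℝ) ^ 4 := by
    have h := diff_sum m L hL
    have h' : ((∑ j : Fin L, (tent m ((j : ℤ) - 1) - tent m j) ^ 2 : ℤ) : ℝ) =
        ((2 * (m : ℤ) : ℤ) : ℝ) := by rw [h]
    push_cast at h'
    rw [h']
    simp [m]
  have hbeta : β ^ 2 = 1 / (M : ℝ) ^ 6 := by
    simp only [β]
    rw [div_pow, one_pow, ← pow_mul]
  refine ⟨Fin L, inferInstance, α, b, ?_, ?_, ?_⟩
  · intro w w'
    have : ∀ j, (b w j - b w' j) ^ 2 = (((f w - f w') * M * β) ^ 2) *
        ((tent m ((j : ℤ) - 1) : ℝ) - (tent m (j : ℤ) : ℝ)) ^ 2 := by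
      intro j
      simp only [b]
      ring
    unfold q
    rw [Finset.sum_congr rfl (fun j _ => this j), ← Finset.mul_sum, hds, mul_pow, mul_pow, hbeta]
    field_simp
  · intro w
    have hpt : ∀ j, (α w j - b w j) ^ 2 ≤
        2 * β ^ 2 * (((tent m ((j : ℤ) - s w) - tent m j -
          s w * (tent m ((j : ℤ) - 1) - tent m j) : ℤ) : ℝ)) ^ 2 +
        2 * (β ^ 2 * (s w - M * (f w + B)) ^ 2) *
          ((tent m ((j : ℤ) - 1) : ℝ) - (tent m (j : ℤ) : ℝ)) ^ 2 := by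
      intro j
      have : α w j - b w j = β * (((tent m ((j : ℤ) - s w) - tent m j -
          s w * (tent m ((j : ℤ) - 1) - tent m j) : ℤ) : ℝ)) +
          β * (s w - M * (f w + B)) *
            ((tent m ((j : ℤ) - 1) : ℝ) - (tent m (j : ℤ) : ℝ)) := by
        simp only [α, b]
        push_cast
        ring
      rw [this]
      nlinarith [sq_nonneg (β * (((tent m ((j : ℤ) - s w) - tent m j -
          s w * (tent m ((j : ℤ) - 1) - tent m j) : ℤ) : ℝ)) -
          β * (s w - M * (f w + B)) *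
            ((tent m ((j : ℤ) - 1) : ℝ) - (tent m (j : ℤ) : ℝ)))]
    have herr : ∑ j : Fin L, (((tent m ((j : ℤ) - s w) - tent m j -
          s w * (tent m ((j : ℤ) - 1) - tent m j) : ℤ) : ℝ)) ^ 2 ≤ 12 * (s w : ℝ) ^ 4 := by
      have h := err_le m (s w) L
      have h' : ((∑ j : Fin L, (tent m ((j : ℤ) - s w) - tent m j -
          s w * (tent m ((j : ℤ) - 1) - tent m j)) ^ 2 : ℤ) : ℝ) ≤
          ((12 * (s w : ℤ) ^ 4 : ℤ) : ℝ) := by exact_mod_cast h
      push_cast at h' ⊢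
      exact h'
    calc q (α w) (b w) ≤ ∑ j : Fin L, (2 * β ^ 2 * (((tent m ((j : ℤ) - s w) - tent m j -
          s w * (tent m ((j : ℤ) - 1) - tent m j) : ℤ) : ℝ)) ^ 2 +
        2 * (β ^ 2 * (s w - M * (f w + B)) ^ 2) *
          ((tent m ((j : ℤ) - 1) : ℝ) - (tent m (j : ℤ) : ℝ)) ^ 2) :=
          Finset.sum_le_sum fun j _ => hpt j
      _ ≤ 2 * β ^ 2 * (12 * (s w : ℝ) ^ 4) +
          2 * (β ^ 2 * (s w - M * (f w + B)) ^ 2) * (2 * (M : ℝ) ^ 4) := by
          rw [Finset.sum_add_distrib, ← Finset.mul_sum, ← Finset.mul_sum, hds]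
          gcongr
      _ ≤ 2 * β ^ 2 * (12 * (2 * M * B) ^ 4) + 2 * (β ^ 2 * 1) * (2 * (M : ℝ) ^ 4) := by
          have h1 : ((s w : ℝ) - M * (f w + B)) ^ 2 ≤ 1 := by
            nlinarith [hs1 w, hs2 w]
          have h2 := hs3 w
          gcongr
      _ = (384 * (B : ℝ) ^ 4 + 4) / (M : ℝ) ^ 2 := by
          rw [hbeta]
          field_simp
          ring
      _ ≤ ε := hMε
  · have h := (Ram.spread (2 * m) S (fun j => (tent m (j : ℤ) : ℝ)) s hsS).smul (sq_nonneg β)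
    refine h.congr fun w w' => ?_
    show β ^ 2 * q _ _ = q _ _
    unfold q
    rw [Finset.mul_sum]
    refine Finset.sum_congr rfl fun j _ => ?_
    have e1 := spread_tent m (2 * m + S) (s w) j
    have e2 := spread_tent m (2 * m + S) (s w') j
    beta_reduce
    rw [e1, e2]
    simp only [α]
    ring

end Pool.Agent.H781R3.ER
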