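import Mathlib
import Pool.Agent.H781R3.ER2

/-!
Configurations at a prescribed distance from a Ramsey configuration, and extension of isometries.
-/

set_option autoImplicit false

namespace Pool.Agent.H781R3.ER

open Finset BigOperators

theorem q_sigma {I : Type} [Fintype I] {κ : I → Type} [∀ i, Fintype (κ i)]
    (u v : (Σ i, κ i) → ℝ) :
    q u v = ∑ i, q (fun k => u ⟨i, k⟩) (fun k => v ⟨i, k⟩) := by
  unfold q
  rw [Fintype.sum_sigma]

/-- For every finite configuration `p` and `H > 0` there are an isometric copy `b` of `p` and a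
Ramsey configuration `a` with all squared distances `|a w - b w|²` equal to `H`. -/
theorem approx_config {F ι : Type} [Finite F] [Fintype ι] (p : F → ι → ℝ) {H : ℝ} (hH : 0 < H) :
    ∃ (κ : Type) (_ : Fintype κ) (a b : F → κ → ℝ),
      (∀ w w', q (b w) (b w') = q (p w) (p w')) ∧ (∀ w, q (b w) (a w) = H) ∧
      Ram F (fun w w' => q (a w) (a w')) := by
  classical
  haveI := Fintype.ofFinite F
  have hε : 0 < H / (Fintype.card ι + 1) := by positivity
  choose κ hκ α b hb hαb hR using fun i : ι =>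
    approx_line (fun w => p w i / Real.sqrt 2) hε
  let A : F → (Σ i, κ i) → ℝ := fun w x => α x.1 w x.2
  let Bv : F → (Σ i, κ i) → ℝ := fun w x => b x.1 w x.2
  have hBv : ∀ w w', q (Bv w) (Bv w') = q (p w) (p w') := by
    intro w w'
    rw [q_sigma]
    unfold q
    refine Finset.sum_congr rfl fun i _ => ?_
    have := hb i w w'
    unfold q at this
    simp only [Bv]
    rw [this, ← sub_div, div_pow, Real.sq_sqrt (by norm_num)]
    ring
  have hAB : ∀ w, q (A w) (Bv w) ≤ H := by
    intro w
    rw [q_sigma]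
    calc ∑ i, q (fun k => A w ⟨i, k⟩) (fun k => Bv w ⟨i, k⟩)
        ≤ ∑ _i : ι, H / (Fintype.card ι + 1) := Finset.sum_le_sum fun i _ => hαb i w
      _ = Fintype.card ι * (H / (Fintype.card ι + 1)) := by
          rw [Finset.sum_const, Finset.card_univ, nsmul_eq_mul]
      _ ≤ H := by
          rw [← mul_div_assoc, div_le_iff₀ (by positivity)]
          nlinarith
  have hRA : Ram F (fun w w' => q (A w) (A w')) := by
    refine (Ram.sum (Finset.univ : Finset ι) (fun i w w' => q (α i w) (α i w'))
      (fun i _ => hR i)).congr fun w w' => ?_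
    rw [q_sigma]
  let t : F → ℝ := fun w => Real.sqrt (H - q (A w) (Bv w))
  have ht : ∀ w, (t w) ^ 2 = H - q (A w) (Bv w) := fun w =>
    Real.sq_sqrt (by linarith [hAB w])
  refine ⟨(Σ i, κ i) ⊕ F, inferInstance,
    fun w => Sum.elim (A w) (fun u => if w = u then t u else 0),
    fun w => Sum.elim (Bv w) (fun _ => 0), fun w w' => ?_, fun w => ?_, ?_⟩
  · rw [q_sumElim, q_self, add_zero, hBv]
  · rw [q_sumElim, q_comm (Bv w)]
    have : q (fun _ : F => (0 : ℝ)) (fun u => if w = u then t u else 0) = (t w) ^ 2 := by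
      unfold q
      rw [Finset.sum_eq_single w]
      · simp
      · intro u _ hu
        simp [Ne.symm hu]
      · intro h
        exact absurd (Finset.mem_univ _) h
    rw [this, ht]
    ring
  · have h1 : Ram F (fun w w' => ∑ u : F,
        (if decide (w = u) = decide (w' = u) then 0 else (t u) ^ 2)) :=
      Ram.sum Finset.univ (fun u w w' =>
        (if decide (w = u) = decide (w' = u) then 0 else (t u) ^ 2))
        (fun u _ => Ram.cut (fun w => decide (w = u)) (sq_nonneg _))
    refine (hRA.add h1).congr fun w w' => ?_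
    rw [q_sumElim]
    congr 1
    unfold q
    refine Finset.sum_congr rfl fun u _ => ?_
    by_cases h2 : w = u <;> by_cases h3 : w' = u <;> simp [h2, h3]

/-- sum-of-squares distance through `EuclideanSpace` -/
theorem q_eq_norm {ι : Type} [Fintype ι] (u v : ι → ℝ) :
    q u v = ‖(WithLp.toLp 2 u : EuclideanSpace ℝ ι) - WithLp.toLp 2 v‖ ^ 2 := by
  rw [EuclideanSpace.norm_sq_eq]
  unfold q
  refine Finset.sum_congr rfl fun i _ => ?_
  simp

theorem q_coe {ι : Type} [Fintype ι] (X Y : EuclideanSpace ℝ ι) :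
    q (fun i => X i) (fun i => Y i) = ‖X - Y‖ ^ 2 := by
  rw [EuclideanSpace.norm_sq_eq]
  unfold q
  refine Finset.sum_congr rfl fun i _ => ?_
  simp

/-- Extension of an isometric embedding of a finite configuration to the whole space. -/
theorem extend_iso {ι κ V : Type} [Fintype ι] [Fintype κ] [Finite V] (P : V → ι → ℝ)
    (P' : V → κ → ℝ) (hPP : ∀ x y, q (P x) (P y) = q (P' x) (P' y)) :
    ∃ E : (κ → ℝ) → (ι ⊕ κ → ℝ), (∀ u v, q (E u) (E v) = q u v) ∧
      ∀ x, E (P' x) = Sum.elim (P x) (fun _ => 0) := by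
  classical
  haveI := Fintype.ofFinite V
  rcases isEmpty_or_nonempty V with hV | ⟨⟨x0⟩⟩
  · exact ⟨fun u => Sum.elim (fun _ => 0) u, fun u v => by rw [q_sumElim, q_self, zero_add],
      fun x => (hV.false x).elim⟩
  let E0 := EuclideanSpace ℝ κ
  let E1 := EuclideanSpace ℝ ι
  let u' : V → E0 := fun x => WithLp.toLp 2 (P' x) - WithLp.toLp 2 (P' x0)
  let u : V → E1 := fun x => WithLp.toLp 2 (P x) - WithLp.toLp 2 (P x0)
  have hn : ∀ x, ‖u x‖ ^ 2 = ‖u' x‖ ^ 2 := fun x => by
    rw [← q_eq_norm, ← q_eq_norm]; exact hPP x x0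
  have hd : ∀ x y, ‖u x - u y‖ ^ 2 = ‖u' x - u' y‖ ^ 2 := fun x y => by
    have e1 : u x - u y = (WithLp.toLp 2 (P x) : E1) - WithLp.toLp 2 (P y) := by
      simp only [u]; abel
    have e2 : u' x - u' y = (WithLp.toLp 2 (P' x) : E0) - WithLp.toLp 2 (P' y) := by
      simp only [u']; abel
    rw [e1, e2, ← q_eq_norm, ← q_eq_norm]; exact hPP x y
  have hin : ∀ x y, inner ℝ (u x) (u y) = inner ℝ (u' x) (u' y) := fun x y => by
    have h1 := norm_sub_sq_real (u x) (u y)
    have h2 := norm_sub_sq_real (u' x) (u' y)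
    have h3 := hd x y
    have h4 := hn x
    have h5 := hn y
    linarith
  let T : (V → ℝ) →ₗ[ℝ] E1 := Fintype.linearCombination ℝ u
  let T' : (V → ℝ) →ₗ[ℝ] E0 := Fintype.linearCombination ℝ u'
  have hT : ∀ c, T c = ∑ x, c x • u x := fun c => Fintype.linearCombination_apply ℝ u c
  have hT' : ∀ c, T' c = ∑ x, c x • u' x := fun c => Fintype.linearCombination_apply ℝ u' c
  have hnorm : ∀ c, ‖T c‖ = ‖T' c‖ := by
    intro c
    have : ‖T c‖ ^ 2 = ‖T' c‖ ^ 2 := by
      rw [← real_inner_self_eq_norm_sq, ← real_inner_self_eq_norm_sq, hT, hT', sum_inner,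
        sum_inner]
      refine Finset.sum_congr rfl fun x _ => ?_
      rw [inner_sum, inner_sum]
      refine Finset.sum_congr rfl fun y _ => ?_
      rw [real_inner_smul_left, real_inner_smul_left, real_inner_smul_right,
        real_inner_smul_right, hin]
    exact (sq_eq_sq₀ (norm_nonneg _) (norm_nonneg _)).1 this
  let S : Submodule ℝ E0 := LinearMap.range T'
  obtain ⟨sec, hsec⟩ := LinearMap.exists_rightInverse_of_surjective T'.rangeRestrict
    (LinearMap.range_eq_top.2 T'.surjective_rangeRestrict)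
  let L0 : S →ₗ[ℝ] E1 := T ∘ₗ sec
  have hsec' : ∀ y : S, T' (sec y) = (y : E0) := fun y => by
    have := LinearMap.congr_fun hsec y
    exact congrArg Subtype.val this
  have hL0 : ∀ y : S, ‖L0 y‖ = ‖(y : E0)‖ := fun y => by
    show ‖T (sec y)‖ = _
    rw [hnorm, hsec']
  have hL0T : ∀ c, L0 ⟨T' c, LinearMap.mem_range_self _ _⟩ = T c := by
    intro c
    show T (sec _) = T c
    have h1 : T' (sec ⟨T' c, LinearMap.mem_range_self _ _⟩ - c) = 0 := by
      rw [map_sub, hsec']
      exact sub_self _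
    have h2 : ‖T (sec ⟨T' c, LinearMap.mem_range_self _ _⟩ - c)‖ = 0 := by
      rw [hnorm, h1, norm_zero]
    rw [norm_eq_zero, map_sub, sub_eq_zero] at h2
    exact h2
  let pr : E0 →ₗ[ℝ] S := (S.orthogonalProjection : E0 →L[ℝ] S).toLinearMap
  have hpr : ∀ y : E0, ‖y‖ ^ 2 = ‖((pr y : S) : E0)‖ ^ 2 + ‖y - (pr y : S)‖ ^ 2 := by
    intro y
    have h1 : inner ℝ ((pr y : S) : E0) (y - (pr y : S)) = 0 := by
      have := Submodule.inner_right_of_mem_orthogonal (K := S) (pr y).2
        (S.sub_starProjection_mem_orthogonal y)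
      exact this
    have h2 : y = ((pr y : S) : E0) + (y - (pr y : S)) := by abel
    conv_lhs => rw [h2]
    rw [norm_add_sq_real, h1]
    ring
  let Y : (κ → ℝ) → E0 := fun y => WithLp.toLp 2 y - WithLp.toLp 2 (P' x0)
  let A1 : (κ → ℝ) → E1 := fun y => WithLp.toLp 2 (P x0) + L0 (pr (Y y))
  let A2 : (κ → ℝ) → E0 := fun y => Y y - ((pr (Y y) : S) : E0)
  refine ⟨fun y => Sum.elim (fun i => A1 y i) (fun i => A2 y i), fun y z => ?_, fun x => ?_⟩
  · rw [q_sumElim, q_coe, q_coe, q_eq_norm y z]
    have hY : Y y - Y z = (WithLp.toLp 2 y : E0) - WithLp.toLp 2 z := by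
      simp only [Y]; abel
    have h1 : A1 y - A1 z = L0 (pr (Y y - Y z)) := by
      simp only [A1, map_sub]; abel
    have h2 : A2 y - A2 z = (Y y - Y z) - ((pr (Y y - Y z) : S) : E0) := by
      simp only [A2, map_sub, Submodule.coe_sub]; abel
    rw [h1, h2, hL0, ← hpr, hY]
  · have hYx : Y (P' x) = T' (Pi.single x 1) := by
      rw [hT', Finset.sum_eq_single x]
      · simp [Y, u']
      · intro y _ hy
        simp [hy]
      · intro h
        exact absurd (Finset.mem_univ _) h
    have hprx : pr (Y (P' x)) = ⟨T' (Pi.single x 1), LinearMap.mem_range_self _ _⟩ := by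
      have h1 : Y (P' x) ∈ S := by rw [hYx]; exact LinearMap.mem_range_self _ _
      apply Subtype.ext
      have h3 : ((S.orthogonalProjection (Y (P' x)) : S) : E0) = Y (P' x) :=
        Submodule.starProjection_eq_self_iff.2 h1
      exact h3.trans hYx
    have hTx : T (Pi.single x 1) = u x := by
      rw [hT, Finset.sum_eq_single x]
      · simp
      · intro y _ hy
        simp [hy]
      · intro h
        exact absurd (Finset.mem_univ _) h
    have hA1 : A1 (P' x) = WithLp.toLp 2 (P x) := by
      simp only [A1]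
      rw [hprx, hL0T, hTx]
      simp only [u]
      abel
    have hA2 : A2 (P' x) = 0 := by
      simp only [A2]
      rw [hprx, hYx]
      exact sub_self _
    beta_reduce
    rw [hA1, hA2]
    rfl

end Pool.Agent.H781R3.ER
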