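import Mathlib
import Pool.Agent.H781R3.ER3

/-!
Adding one point off the affine hull to a Ramsey set.
-/

set_option autoImplicit false

namespace Pool.Agent.H781R3.ER

open Finset BigOperators

/-- squared distances of `X ∪ {z}`, where `z` lies at height `√H` above the point `p` -/
def DV {X κ0 : Type} [Fintype κ0] (x : X → κ0 → ℝ) (p : κ0 → ℝ) (H : ℝ) :
    Option X → Option X → ℝ
  | some a, some b => q (x a) (x b)
  | some a, none => q (x a) p + H
  | none, some b => q (x b) p + H
  | none, none => 0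

theorem ramC_of_isEmpty {C V : Type} (D : V → V → ℝ) (hC : IsEmpty C) : RamC C V D :=
  ⟨Empty, Unit, inferInstance, inferInstance, fun _ _ => 0, fun c => (hC.false (c ())).elim⟩

/-- The key induction on the number of colours. -/
theorem step {X κ0 : Type} [Finite X] [Fintype κ0] (x : X → κ0 → ℝ) (p : κ0 → ℝ) {H : ℝ}
    (hH : 0 < H) (hX : Ram X (fun a b => q (x a) (x b))) (k : ℕ) :
    RamC (Fin k) (Option X) (DV x p H) := by
  induction k with
  | zero => exact ramC_of_isEmpty _ inferInstance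
  | succ k ih =>
    obtain ⟨ι, F, _, _, pF, hF⟩ := ih
    obtain ⟨κ, _, a, b, hb, hba, hRa⟩ := approx_config pF hH
    have hXA := hX.prod hRa
    obtain ⟨ι', G, _, _, P, hP⟩ := hXA (Fin (k + 1))
    let P' : X × F → (κ0 ⊕ κ → ℝ) := fun u => Sum.elim (x u.1) (a u.2)
    let Copies : Type := {g' : X × F → G // ∀ u v, q (P (g' u)) (P (g' v)) = q (P' u) (P' v)}
    choose E hE1 hE2 using fun g' : Copies => extend_iso (fun u => P (g'.1 u)) P' g'.2
    rcases isEmpty_or_nonempty F with hFe | ⟨⟨w0⟩⟩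
    · obtain ⟨g, _⟩ := hF (fun f => (hFe.false f).elim)
      exact (hFe.false (g none)).elim
    refine ⟨ι' ⊕ (κ0 ⊕ κ), G ⊕ (Copies × F), inferInstance, inferInstance,
      Sum.elim (fun g => Sum.elim (P g) (fun _ => 0))
        (fun gw => E gw.1 (Sum.elim p (b gw.2))), fun c => ?_⟩
    obtain ⟨g', hg1, hg2⟩ := hP (fun g => c (Sum.inl g))
    let gc : Copies := ⟨g', fun u v => by rw [hg1]; simp only [P', q_sumElim]⟩
    have hE2' : ∀ u, E gc (P' u) = Sum.elim (P (g' u)) (fun _ => 0) := fun u => hE2 gc u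
    rcases isEmpty_or_nonempty X with hXe | ⟨⟨x0⟩⟩
    · refine ⟨fun _ => Sum.inr (gc, w0), fun u v => ?_, fun u v => rfl⟩
      rcases u with _ | u
      · rcases v with _ | v
        · simp only [DV]; exact q_self _
        · exact (hXe.false v).elim
      · exact (hXe.false u).elim
    by_cases hw : ∃ w, c (Sum.inr (gc, w)) = c (Sum.inl (g' (x0, w0)))
    · obtain ⟨w, hw⟩ := hw
      have hsn : ∀ y : X, q (Sum.elim (P (g' (y, w))) (fun _ => 0))
          (E gc (Sum.elim p (b w))) = q (x y) p + H := by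
        intro y
        rw [← hE2' (y, w), hE1]
        simp only [P', q_sumElim]
        rw [q_comm (a w), hba]
      refine ⟨fun o => match o with
        | some y => Sum.inl (g' (y, w))
        | none => Sum.inr (gc, w), fun u v => ?_, ?_⟩
      · rcases u with _ | u <;> rcases v with _ | v
        · simp only [DV]; exact q_self _
        · simp only [DV, Sum.elim_inl, Sum.elim_inr]
          rw [q_comm]; exact hsn v
        · simp only [DV, Sum.elim_inl, Sum.elim_inr]
          exact hsn u
        · simp only [DV, Sum.elim_inl]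
          rw [q_sumElim, q_self, add_zero, hg1]
          simp only
          rw [q_self, add_zero]
      · have hc : ∀ o : Option X, c (match o with
          | some y => Sum.inl (g' (y, w))
          | none => Sum.inr (gc, w)) = c (Sum.inl (g' (x0, w0))) := by
          intro o
          rcases o with _ | y
          · exact hw
          · exact hg2 _ _
        intro u v
        rw [hc, hc]
    · push Not at hw
      choose col hcol using fun w => Fin.exists_succAbove_eq (hw w)
      obtain ⟨g, hg, hg'⟩ := hF col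
      refine ⟨fun o => Sum.inr (gc, g o), fun u v => ?_, fun u v => ?_⟩
      · simp only [Sum.elim_inr]
        rw [hE1, q_sumElim, q_self, zero_add, hb, hg]
      · rw [← hcol, ← hcol, hg' u v]

/-- Compactness: the infinite form of the Ramsey property gives finite configurations. -/
theorem ram_of_hyp {X : Type} [Finite X] {d : ℕ} (x : X → EuclideanSpace ℝ (Fin d))
    (h : ∀ r : ℕ, ∃ N : ℕ, ∀ c : EuclideanSpace ℝ (Fin N) → Fin r,
      ∃ g : X → EuclideanSpace ℝ (Fin N), (∀ a b, dist (g a) (g b) = dist (x a) (x b)) ∧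
        ∀ a b, c (g a) = c (g b)) :
    Ram X (fun a b => q (fun i => x a i) (fun i => x b i)) := by
  intro C _
  classical
  rcases isEmpty_or_nonempty C with hC | hC
  · exact ramC_of_isEmpty _ hC
  rcases isEmpty_or_nonempty X with hX | ⟨⟨x0⟩⟩
  · exact ⟨Empty, Unit, inferInstance, inferInstance, fun _ _ => 0, fun c =>
      ⟨fun a => (hX.false a).elim, fun a => (hX.false a).elim, fun a => (hX.false a).elim⟩⟩
  obtain ⟨N, hN⟩ := h (Nat.card C)
  let e : C ≃ Fin (Nat.card C) := Finite.equivFin C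
  by_contra hcon
  have hs : ∀ s : Finset (EuclideanSpace ℝ (Fin N)), ∃ c : EuclideanSpace ℝ (Fin N) → C,
      ∀ g : X → EuclideanSpace ℝ (Fin N), (∀ a, g a ∈ s) →
        (∀ a b, dist (g a) (g b) = dist (x a) (x b)) → ¬ ∀ a b, c (g a) = c (g b) := by
    intro s
    by_contra hs
    push Not at hs
    apply hcon
    refine ⟨Fin N, s, inferInstance, inferInstance, fun f i => (f : EuclideanSpace ℝ (Fin N)) i,
      fun c => ?_⟩
    obtain ⟨g, hg1, hg2, hg3⟩ := hs (fun y => if hy : y ∈ s then c ⟨y, hy⟩ else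
      Classical.arbitrary C)
    refine ⟨fun a => ⟨g a, hg1 a⟩, fun a b => ?_, fun a b => ?_⟩
    · show q (fun i => g a i) (fun i => g b i) = q (fun i => x a i) (fun i => x b i)
      rw [q_coe, q_coe, ← dist_eq_norm, ← dist_eq_norm, hg2]
    · have := hg3 a b
      simp only [hg1, dif_pos] at this
      exact this
  choose c hc using hs
  let U : Ultrafilter (Finset (EuclideanSpace ℝ (Fin N))) := Ultrafilter.of Filter.atTop
  have hU : (U : Filter (Finset (EuclideanSpace ℝ (Fin N)))) ≤ Filter.atTop := Ultrafilter.of_le _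
  have hlim : ∀ y, ∃ k : C, ∀ᶠ s in (U : Filter (Finset (EuclideanSpace ℝ (Fin N)))), c s y = k := by
    intro y
    obtain ⟨k, hk⟩ := Ultrafilter.eq_pure_of_finite (U.map (fun s => c s y))
    refine ⟨k, ?_⟩
    have : ({k} : Set C) ∈ U.map (fun s => c s y) := by
      rw [hk]; exact Ultrafilter.mem_pure.2 rfl
    exact this
  choose χ hχ using hlim
  obtain ⟨g, hg1, hg2⟩ := hN (fun y => e (χ y))
  have h1 : ∀ᶠ s in (U : Filter (Finset (EuclideanSpace ℝ (Fin N)))), ∀ a, c s (g a) = χ (g a) :=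
    Filter.eventually_all.2 fun a => hχ (g a)
  have h2 : ∀ᶠ s in (U : Filter (Finset (EuclideanSpace ℝ (Fin N)))), ∀ a, g a ∈ s :=
    Filter.eventually_all.2 fun a => hU (Filter.mem_atTop_sets.2
      ⟨{g a}, fun s hs => hs (Finset.mem_singleton_self _)⟩)
  obtain ⟨s, hs1, hs2⟩ := (h1.and h2).exists
  apply hc s g hs2 hg1
  intro a b
  rw [hs1, hs1]
  exact e.injective (hg2 a b)

/-- Main theorem in the form of the frozen statement. -/
theorem main (d : ℕ) (X : Set (EuclideanSpace ℝ (Fin d))) (z : EuclideanSpace ℝ (Fin (d + 1)))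
    (hfin : X.Finite)
    (hR : ∀ r : ℕ, ∃ N : ℕ, ∀ c : EuclideanSpace ℝ (Fin N) → Fin r,
        ∃ g : X → EuclideanSpace ℝ (Fin N), Isometry g ∧ ∀ x y : X, c (g x) = c (g y))
    (hz : z (Fin.last d) ≠ 0) (r : ℕ) :
    ∃ N : ℕ, ∀ c : EuclideanSpace ℝ (Fin N) → Fin r,
        ∃ g : ({y : EuclideanSpace ℝ (Fin (d + 1)) |
                  y (Fin.last d) = 0 ∧ ∃ x ∈ X, ∀ i : Fin d, y (Fin.castSucc i) = x i}
                ∪ {z} : Set (EuclideanSpace ℝ (Fin (d + 1)))) → EuclideanSpace ℝ (Fin N),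
          Isometry g ∧ ∀ x y, c (g x) = c (g y) := by
  classical
  haveI : Finite X := hfin
  have hX : Ram X (fun a b => q (fun i => (a : EuclideanSpace ℝ (Fin d)) i)
      (fun i => (b : EuclideanSpace ℝ (Fin d)) i)) := by
    refine ram_of_hyp (fun a : X => (a : EuclideanSpace ℝ (Fin d))) fun r => ?_
    obtain ⟨N, hN⟩ := hR r
    refine ⟨N, fun c => ?_⟩
    obtain ⟨g, hg1, hg2⟩ := hN c
    exact ⟨g, fun a b => hg1.dist_eq a b, hg2⟩
  have hH : 0 < (z (Fin.last d)) ^ 2 := by positivity
  obtain ⟨ι, F, _, _, pF, hF⟩ := step (fun (a : X) i => (a : EuclideanSpace ℝ (Fin d)) i)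
    (fun i => z (Fin.castSucc i)) hH hX r
  let e : ι ≃ Fin (Fintype.card ι) := Fintype.equivFin ι
  let emb : F → EuclideanSpace ℝ (Fin (Fintype.card ι)) := fun f =>
    WithLp.toLp 2 (fun i => pF f (e.symm i))
  have hemb : ∀ f f', ‖emb f - emb f'‖ ^ 2 = q (pF f) (pF f') := by
    intro f f'
    simp only [emb]
    rw [← q_eq_norm]
    unfold q
    exact Fintype.sum_equiv e.symm _ _ (fun i => rfl)
  refine ⟨Fintype.card ι, fun c => ?_⟩
  obtain ⟨g, hg1, hg2⟩ := hF (fun f => c (emb f))
  let Y : Set (EuclideanSpace ℝ (Fin (d + 1))) := {y : EuclideanSpace ℝ (Fin (d + 1)) |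
                  y (Fin.last d) = 0 ∧ ∃ x ∈ X, ∀ i : Fin d, y (Fin.castSucc i) = x i}
  have hY : ∀ y : (Y ∪ {z} : Set _), (y : EuclideanSpace ℝ (Fin (d + 1))) ≠ z →
      ∃ x : X, (y : EuclideanSpace ℝ (Fin (d + 1))) (Fin.last d) = 0 ∧
        ∀ i : Fin d, (y : EuclideanSpace ℝ (Fin (d + 1))) (Fin.castSucc i) =
          (x : EuclideanSpace ℝ (Fin d)) i := by
    intro y hy
    rcases y.2 with ⟨h0, x, hx, hxy⟩ | h
    · exact ⟨⟨x, hx⟩, h0, hxy⟩
    · exact absurd h hy
  choose ξ hξ0 hξ using hY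
  let τ : (Y ∪ {z} : Set _) → Option X := fun y =>
    if h : (y : EuclideanSpace ℝ (Fin (d + 1))) = z then none else some (ξ y h)
  refine ⟨fun y => emb (g (τ y)), ?_, fun y y' => hg2 _ _⟩
  refine Isometry.of_dist_eq fun y y' => ?_
  have hsum : ∀ u v : EuclideanSpace ℝ (Fin (d + 1)), ‖u - v‖ ^ 2 =
      q (fun i : Fin d => u (Fin.castSucc i)) (fun i => v (Fin.castSucc i)) +
        (u (Fin.last d) - v (Fin.last d)) ^ 2 := by
    intro u v
    rw [← q_coe]
    unfold q
    rw [Fin.sum_univ_castSucc]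
  have hsq : dist (emb (g (τ y))) (emb (g (τ y'))) ^ 2 = dist y y' ^ 2 := by
    rw [Subtype.dist_eq, dist_eq_norm, dist_eq_norm, hemb, hg1, hsum]
    by_cases hy : (y : EuclideanSpace ℝ (Fin (d + 1))) = z <;>
      by_cases hy' : (y' : EuclideanSpace ℝ (Fin (d + 1))) = z
    · have h1 : τ y = none := dif_pos hy
      have h2 : τ y' = none := dif_pos hy'
      rw [h1, h2, hy, hy']
      simp only [DV]
      rw [q_self]; ring
    · have h1 : τ y = none := dif_pos hy
      have h2 : τ y' = some (ξ y' hy') := dif_neg hy'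
      rw [h1, h2, hy, hξ0 y' hy']
      simp only [DV]
      rw [q_comm, sub_zero]
      congr 2
      funext i
      exact (hξ y' hy' i).symm
    · have h1 : τ y' = none := dif_pos hy'
      have h2 : τ y = some (ξ y hy) := dif_neg hy
      rw [h1, h2, hy', hξ0 y hy]
      simp only [DV]
      have : (fun i : Fin d => (y : EuclideanSpace ℝ (Fin (d + 1))) (Fin.castSucc i)) =
          fun i => (ξ y hy : EuclideanSpace ℝ (Fin d)) i := by
        funext i
        exact hξ y hy i
      rw [this]
      ring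
    · have h1 : τ y = some (ξ y hy) := dif_neg hy
      have h2 : τ y' = some (ξ y' hy') := dif_neg hy'
      rw [h1, h2, hξ0 y hy, hξ0 y' hy']
      simp only [DV]
      have e1 : (fun i : Fin d => (y : EuclideanSpace ℝ (Fin (d + 1))) (Fin.castSucc i)) =
          fun i => (ξ y hy : EuclideanSpace ℝ (Fin d)) i := by
        funext i
        exact hξ y hy i
      have e2 : (fun i : Fin d => (y' : EuclideanSpace ℝ (Fin (d + 1))) (Fin.castSucc i)) =
          fun i => (ξ y' hy' : EuclideanSpace ℝ (Fin d)) i := by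
        funext i
        exact hξ y' hy' i
      rw [e1, e2]
      ring
  exact (sq_eq_sq₀ dist_nonneg dist_nonneg).1 hsq

end Pool.Agent.H781R3.ER
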