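import Pool.Agent.H781R3.ReachVal

/-!
Concurrent games with deterministic transitions: values of stationary profiles and the one-shot
deviation inequality.
-/

set_option autoImplicit false

namespace Pool.Agent.H781R3

open Filter Topology

/-- A change of the positive linear operator at one state `s` only. -/
theorem one_shot_kernel {S : Type} [Fintype S] (L L' : (S → ℝ) → S → ℝ) (T : Set S) (x0 W W' : S → ℝ)
    (s : S) (hs : s ∉ T)
    (hmono : ∀ x y : S → ℝ, (∀ s, x s ≤ y s) → ∀ s, L x s ≤ L y s)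
    (hmono' : ∀ x y : S → ℝ, (∀ s, x s ≤ y s) → ∀ s, L' x s ≤ L' y s)
    (hconst : ∀ (x : S → ℝ) (c : ℝ) (s : S), L' (fun t => x t + c) s = L' x s + c)
    (hagree : ∀ (x : S → ℝ) (t : S), t ≠ s → L x t = L' x t)
    (hit : ∀ n s, (stepOp L T)^[n] x0 s ≤ W s)
    (hlim : ∀ s, Tendsto (fun n => (stepOp L T)^[n] x0 s) atTop (𝓝 (W s)))
    (hx0 : ∀ t, x0 t ≤ W' t)
    (hT' : ∀ t ∈ T, W' t = 1) (hfix' : ∀ t, t ∉ T → W' t = L' W' t) :
    L' W s ≤ max (W s) (W' s) := by
  classical
  set m : ℝ := max (W s - W' s) 0 with hm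
  have hm0 : 0 ≤ m := le_max_right _ _
  have hm1 : W s - W' s ≤ m := le_max_left _ _
  have key : ∀ n t, (stepOp L T)^[n] x0 t ≤ W' t + m := by
    intro n
    induction n with
    | zero =>
      intro t
      simp only [Function.iterate_zero, id_eq]
      have := hx0 t
      linarith
    | succ n ih =>
      intro t
      by_cases hts : t = s
      · subst hts
        have := hit (n+1) t
        linarith
      · rw [Function.iterate_succ_apply']
        by_cases htT : t ∈ T
        · rw [stepOp_mem L T _ htT, hT' t htT]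
          linarith
        · rw [stepOp_notMem L T _ htT]
          calc L ((stepOp L T)^[n] x0) t ≤ L (fun t => W' t + m) t := hmono _ _ ih t
            _ = L' (fun t => W' t + m) t := hagree _ _ hts
            _ = L' W' t + m := hconst _ _ _
            _ = W' t + m := by rw [← hfix' t htT]
  have key2 : ∀ t, W t ≤ W' t + m := fun t =>
    le_of_tendsto (hlim t) (Eventually.of_forall (fun n => key n t))
  calc L' W s ≤ L' (fun t => W' t + m) s := hmono' _ _ key2 s
    _ = L' W' s + m := hconst _ _ _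
    _ = W' s + m := by rw [← hfix' s hs]
    _ = max (W s) (W' s) := by
      rw [hm]
      rcases le_total (W s - W' s) 0 with h | h
      · rw [max_eq_right h, max_eq_right (by linarith)]; ring
      · rw [max_eq_left h, max_eq_left (by linarith)]; ring

section game

variable {S A B : Type} [Fintype S] [Fintype A] [Fintype B] (next : S → A → B → S)

/-- One step expectation. -/
noncomputable def gL (σ : S → A → ℝ) (τ : S → B → ℝ) (x : S → ℝ) (s : S) : ℝ :=
  ∑ a, ∑ b, σ s a * τ s b * x (next s a b)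

/-- Validity of a stationary strategy. -/
def Valid {S A : Type} [Fintype A] (σ : S → A → ℝ) : Prop :=
  (∀ s a, 0 ≤ σ s a) ∧ ∀ s, ∑ a, σ s a = 1

theorem gL_mono (σ : S → A → ℝ) (τ : S → B → ℝ) (hσ : Valid σ) (hτ : Valid τ)
    (x y : S → ℝ) (h : ∀ s, x s ≤ y s) (s : S) : gL next σ τ x s ≤ gL next σ τ y s := by
  unfold gL
  exact Finset.sum_le_sum (fun a _ => Finset.sum_le_sum (fun b _ =>
    mul_le_mul_of_nonneg_left (h _) (mul_nonneg (hσ.1 s a) (hτ.1 s b))))

theorem gL_const (σ : S → A → ℝ) (τ : S → B → ℝ) (hσ : Valid σ) (hτ : Valid τ) (c : ℝ) (s : S) :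
    gL next σ τ (fun _ => c) s = c := by
  unfold gL
  have : ∀ a, ∑ b, σ s a * τ s b * c = σ s a * c := by
    intro a
    rw [← Finset.sum_mul, ← Finset.mul_sum, hτ.2, mul_one]
  rw [Finset.sum_congr rfl (fun a _ => this a), ← Finset.sum_mul, hσ.2, one_mul]

theorem gL_add (σ : S → A → ℝ) (τ : S → B → ℝ) (hσ : Valid σ) (hτ : Valid τ) (x : S → ℝ)
    (c : ℝ) (s : S) :
    gL next σ τ (fun t => x t + c) s = gL next σ τ x s + c := by
  have h := gL_const next σ τ hσ hτ c s
  unfold gL at *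
  rw [← h]
  simp_rw [← Finset.sum_add_distrib]
  rw [h]
  apply Finset.sum_congr rfl; intro a _
  apply Finset.sum_congr rfl; intro b _
  ring

/-- The value of a stationary profile for the target `T`. -/
noncomputable def gval (σ : S → A → ℝ) (τ : S → B → ℝ) (T : Set S) (s : S) : ℝ :=
  ⨆ n : ℕ, ((fun v : S → ℝ => T.indicator (fun _ => (1 : ℝ)) +
      Tᶜ.indicator (fun x => ∑ a, ∑ b, σ x a * τ x b * v (next x a b)))^[n]
      (T.indicator (fun _ => (1 : ℝ)))) s

theorem gval_full (σ : S → A → ℝ) (τ : S → B → ℝ) (hσ : Valid σ) (hτ : Valid τ) (T : Set S) :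
    (∀ s, Tendsto (fun n => (stepOp (gL next σ τ) T)^[n] (T.indicator (fun _ => (1 : ℝ))) s) atTop
        (𝓝 (gval next σ τ T s))) ∧
      (∀ n s, (stepOp (gL next σ τ) T)^[n] (T.indicator (fun _ => (1 : ℝ))) s
        ≤ gval next σ τ T s) ∧
      (∀ s, 0 ≤ gval next σ τ T s) ∧ (∀ s, gval next σ τ T s ≤ 1) ∧
      (∀ s ∈ T, gval next σ τ T s = 1) ∧
      (∀ s, s ∉ T → gval next σ τ T s = gL next σ τ (gval next σ τ T) s) ∧
      (∀ v : S → ℝ, (∀ s, 0 ≤ v s) → (∀ s ∈ T, 1 ≤ v s) → (∀ s, s ∉ T → gL next σ τ v s ≤ v s) →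
        ∀ s, gval next σ τ T s ≤ v s) := by
  classical
  obtain ⟨W, h1, h2, h3, h4, h5, h6, h7, h8⟩ := val_spec (gL next σ τ) T
    (T.indicator (fun _ => (1 : ℝ)))
    (gL_mono next σ τ hσ hτ)
    (fun s => (gL_const next σ τ hσ hτ 1 s).le)
    (fun s => (gL_const next σ τ hσ hτ 0 s).ge)
    (fun x y h s => by
      unfold gL
      exact tendsto_finsetSum _ (fun a _ => tendsto_finsetSum _ (fun b _ => (h _).const_mul _)))
    (fun s => Set.indicator_nonneg (fun _ _ => zero_le_one) s)
    (fun s => by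
      by_cases hs : s ∈ T <;> simp [hs])
    (fun s => by
      by_cases hs : s ∈ T
      · rw [stepOp_mem _ _ _ hs]; simp [hs]
      · rw [stepOp_notMem _ _ _ hs]
        rw [Set.indicator_of_notMem hs]
        refine (gL_const next σ τ hσ hτ 0 s).ge.trans ?_
        exact gL_mono next σ τ hσ hτ _ _ (fun s => Set.indicator_nonneg (fun _ _ => zero_le_one) s) s)
    (fun v hv0 hvT s => by
      by_cases hs : s ∈ T
      · simpa [hs] using hvT s hs
      · simpa [hs] using hv0 s)
  have hW : W = gval next σ τ T := by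
    funext s
    exact (h1 s).symm
  subst hW
  exact ⟨h2, h3, h4, h5, h6, h7, h8⟩

theorem update_valid {S A : Type} [Fintype A] [DecidableEq S] (σ : S → A → ℝ) (hσ : Valid σ)
    (s : S) (ρ : A → ℝ) (h0 : ∀ a, 0 ≤ ρ a) (h1 : ∑ a, ρ a = 1) :
    Valid (Function.update σ s ρ) := by
  constructor
  · intro t a
    by_cases h : t = s
    · subst h; simp [h0]
    · simp [Function.update_of_ne h, hσ.1]
  · intro t
    by_cases h : t = s
    · subst h; simp [h1]
    · simp [Function.update_of_ne h, hσ.2]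

/-- One-shot inequality for player 1. -/
theorem one_shot₁ [DecidableEq S] (σ : S → A → ℝ) (τ : S → B → ℝ) (hσ : Valid σ) (hτ : Valid τ)
    (T : Set S) (ε : ℝ) (hε : 0 ≤ ε)
    (hne : ∀ σ' : S → A → ℝ, Valid σ' → ∀ s, gval next σ' τ T s ≤ gval next σ τ T s + ε)
    (s : S) (hs : s ∉ T) (ρ : A → ℝ) (h0 : ∀ a, 0 ≤ ρ a) (h1 : ∑ a, ρ a = 1) :
    ∑ a, ∑ b, ρ a * τ s b * gval next σ τ T (next s a b) ≤ gval next σ τ T s + ε := by
  classical
  have hv := update_valid σ hσ s ρ h0 h1
  obtain ⟨a1, a2, a3, a4, a5, a6, a7⟩ := gval_full next σ τ hσ hτ T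
  obtain ⟨b1, b2, b3, b4, b5, b6, b7⟩ := gval_full next (Function.update σ s ρ) τ hv hτ T
  have h := one_shot_kernel (gL next σ τ) (gL next (Function.update σ s ρ) τ) T
    (T.indicator (fun _ => (1 : ℝ))) (gval next σ τ T) (gval next (Function.update σ s ρ) τ T) s hs
    (gL_mono next σ τ hσ hτ) (gL_mono next _ τ hv hτ) (gL_add next _ τ hv hτ)
    (fun x t ht => by unfold gL; rw [Function.update_of_ne ht])
    a2 a1 (fun t => by simpa using b2 0 t) b5 b6
  have h2 := hne _ hv s
  have h3 : gL next (Function.update σ s ρ) τ (gval next σ τ T) s =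
      ∑ a, ∑ b, ρ a * τ s b * gval next σ τ T (next s a b) := by
    unfold gL; simp
  rw [← h3]
  refine h.trans (max_le ?_ h2)
  linarith

/-- One-shot inequality for player 2. -/
theorem one_shot₂ [DecidableEq S] (σ : S → A → ℝ) (τ : S → B → ℝ) (hσ : Valid σ) (hτ : Valid τ)
    (T : Set S) (ε : ℝ) (hε : 0 ≤ ε)
    (hne : ∀ τ' : S → B → ℝ, Valid τ' → ∀ s, gval next σ τ' T s ≤ gval next σ τ T s + ε)
    (s : S) (hs : s ∉ T) (ρ : B → ℝ) (h0 : ∀ a, 0 ≤ ρ a) (h1 : ∑ a, ρ a = 1) :
    ∑ a, ∑ b, σ s a * ρ b * gval next σ τ T (next s a b) ≤ gval next σ τ T s + ε := by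
  classical
  have hv := update_valid τ hτ s ρ h0 h1
  obtain ⟨a1, a2, a3, a4, a5, a6, a7⟩ := gval_full next σ τ hσ hτ T
  obtain ⟨b1, b2, b3, b4, b5, b6, b7⟩ := gval_full next σ (Function.update τ s ρ) hσ hv T
  have h := one_shot_kernel (gL next σ τ) (gL next σ (Function.update τ s ρ)) T
    (T.indicator (fun _ => (1 : ℝ))) (gval next σ τ T) (gval next σ (Function.update τ s ρ) T) s hs
    (gL_mono next σ τ hσ hτ) (gL_mono next σ _ hσ hv) (gL_add next σ _ hσ hv)
    (fun x t ht => by unfold gL; rw [Function.update_of_ne ht])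
    a2 a1 (fun t => by simpa using b2 0 t) b5 b6
  have h2 := hne _ hv s
  have h3 : gL next σ (Function.update τ s ρ) (gval next σ τ T) s =
      ∑ a, ∑ b, σ s a * ρ b * gval next σ τ T (next s a b) := by
    unfold gL; simp
  rw [← h3]
  refine h.trans (max_le ?_ h2)
  linarith

end game

end Pool.Agent.H781R3
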