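import Pool.Agent.H781R3.ReachVal

/-!
A seven-state two-player stochastic game with a reachability objective for player 1 and a safety
objective for player 2 and without stationary epsilon-equilibria.

States: `0` start, `1` = r, `2` = z, `3` in T and U, `4` in T only, `5` in U only, `6` in neither.
-/

set_option autoImplicit false

namespace Pool.Agent.H781R3

/-- transition law of the game -/
noncomputable def rsD : Fin 7 → Fin 2 → Fin 2 → Fin 7 → ℝ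
  | 0, _, _ => ![0, 1/2, 1/2, 0, 0, 0, 0]
  | 1, 0, 0 => ![0, 1, 0, 0, 0, 0, 0]
  | 1, 1, 0 => ![0, 0, 0, 1/4, 0, 1/2, 1/4]
  | 1, 0, 1 => ![0, 0, 1/2, 1/2, 0, 0, 0]
  | 1, 1, 1 => ![0, 0, 0, 0, 0, 0, 1]
  | 2, 0, _ => ![0, 1, 0, 0, 0, 0, 0]
  | 2, 1, _ => ![0, 0, 0, 0, 1/2, 0, 1/2]
  | 3, _, _ => ![0, 0, 0, 1, 0, 0, 0]
  | 4, _, _ => ![0, 0, 0, 0, 1, 0, 0]
  | 5, _, _ => ![0, 0, 0, 0, 0, 1, 0]
  | 6, _, _ => ![0, 0, 0, 0, 0, 0, 1]

theorem rsD_nonneg : ∀ s a b t, 0 ≤ rsD s a b t := by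
  intro s a b t
  fin_cases s <;> fin_cases a <;> fin_cases b <;> fin_cases t <;> simp [rsD]

theorem rsD_sum : ∀ s a b, ∑ t, rsD s a b t = 1 := by
  intro s a b
  fin_cases s <;> fin_cases a <;> fin_cases b <;> simp [rsD, Fin.sum_univ_succ] <;> norm_num

/-- the kernel of a stationary profile -/
noncomputable def rsK (σ : Fin 7 → Fin 2 → ℝ) (τ : Fin 7 → Fin 2 → ℝ) (s t : Fin 7) : ℝ :=
  ∑ a, ∑ b, σ s a * τ s b * rsD s a b t

theorem rsK_nonneg (σ τ : Fin 7 → Fin 2 → ℝ) (hσ : ∀ s a, 0 ≤ σ s a) (hτ : ∀ s b, 0 ≤ τ s b) :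
    ∀ s t, 0 ≤ rsK σ τ s t := by
  intro s t
  exact Finset.sum_nonneg (fun a _ => Finset.sum_nonneg (fun b _ =>
    mul_nonneg (mul_nonneg (hσ s a) (hτ s b)) (rsD_nonneg s a b t)))

theorem rsK_sum (σ τ : Fin 7 → Fin 2 → ℝ) (hσ : ∀ s, ∑ a, σ s a = 1) (hτ : ∀ s, ∑ b, τ s b = 1) :
    ∀ s, ∑ t, rsK σ τ s t = 1 := by
  intro s
  unfold rsK
  rw [Finset.sum_comm]
  have h1 : ∀ a, ∑ t, ∑ b, σ s a * τ s b * rsD s a b t = σ s a := by
    intro a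
    rw [Finset.sum_comm]
    have : ∀ b, ∑ t, σ s a * τ s b * rsD s a b t = σ s a * τ s b := by
      intro b
      rw [← Finset.mul_sum, rsD_sum, mul_one]
    rw [Finset.sum_congr rfl (fun b _ => this b), ← Finset.mul_sum, hτ, mul_one]
  rw [Finset.sum_congr rfl (fun a _ => h1 a), hσ]

/-- Facts for the target set of player 1. -/
theorem rs_T (σ τ : Fin 7 → Fin 2 → ℝ) (hσ : ∀ s a, 0 ≤ σ s a) (hσ1 : ∀ s, ∑ a, σ s a = 1)
    (hτ : ∀ s b, 0 ≤ τ s b) (hτ1 : ∀ s, ∑ b, τ s b = 1) (T : Set (Fin 7)) (α κ : ℝ)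
    (hT : (T = {3, 4} ∧ α = 1/4 ∧ κ = 1/2) ∨ (T = {3, 5} ∧ α = 3/4 ∧ κ = 0)) :
    ∃ w0 w1 w2 : ℝ, (⨆ n : ℕ, (fun x : Fin 7 → ℝ => T.indicator (fun _ => (1 : ℝ)) +
              Tᶜ.indicator (fun s => ∑ t, (∑ a, ∑ b, σ s a * τ s b * rsD s a b t) * x t))^[n] 0 0)
          = w0 ∧
      w0 = (w1 + w2) / 2 ∧ 0 ≤ w1 ∧ w1 ≤ 1 ∧ 0 ≤ w2 ∧ w2 ≤ 1 ∧
      w1 = σ 1 0 * τ 1 0 * w1 + σ 1 1 * τ 1 0 * α + σ 1 0 * τ 1 1 * (w2 / 2 + 1 / 2) ∧
      w2 = σ 2 0 * w1 + σ 2 1 * κ ∧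
      (∀ v1 v2 : ℝ, 0 ≤ v1 → 0 ≤ v2 →
        σ 1 0 * τ 1 0 * v1 + σ 1 1 * τ 1 0 * α + σ 1 0 * τ 1 1 * (v2 / 2 + 1 / 2) ≤ v1 →
        σ 2 0 * v1 + σ 2 1 * κ ≤ v2 → w1 ≤ v1 ∧ w2 ≤ v2) := by
  obtain ⟨W, hsup, h0, h1, hT1, hfix, hmin⟩ :=
    val_spec_kernel (rsK σ τ) (rsK_nonneg σ τ hσ hτ) (rsK_sum σ τ hσ1 hτ1) T
  have s0 := hτ1 0
  have s1 := hτ1 1
  have s2 := hτ1 2
  have s3 := hτ1 3
  have s4 := hτ1 4
  have s5 := hτ1 5
  have s6 := hτ1 6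
  have u0 := hσ1 0
  have u1 := hσ1 1
  have u2 := hσ1 2
  have u3 := hσ1 3
  have u4 := hσ1 4
  have u5 := hσ1 5
  have u6 := hσ1 6
  rw [Fin.sum_univ_two] at s0 s1 s2 s3 s4 s5 s6 u0 u1 u2 u3 u4 u5 u6
  -- evaluation of the kernel
  have ev0 : ∀ v : Fin 7 → ℝ, ∑ t, rsK σ τ 0 t * v t = (v 1 + v 2) / 2 := by
    intro v
    have : ∑ t, rsK σ τ 0 t * v t = (σ 0 0 + σ 0 1) * (τ 0 0 + τ 0 1) * ((v 1 + v 2) / 2) := by
      simp [rsK, rsD, Fin.sum_univ_succ]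
      ring
    rw [this, s0, u0]; ring
  have ev1 : ∀ v : Fin 7 → ℝ, ∑ t, rsK σ τ 1 t * v t = σ 1 0 * τ 1 0 * v 1 +
      σ 1 1 * τ 1 0 * (v 3 / 4 + v 5 / 2 + v 6 / 4) + σ 1 0 * τ 1 1 * (v 2 / 2 + v 3 / 2)
      + σ 1 1 * τ 1 1 * v 6 := by
    intro v
    simp [rsK, rsD, Fin.sum_univ_succ]
    ring
  have ev2 : ∀ v : Fin 7 → ℝ, ∑ t, rsK σ τ 2 t * v t = σ 2 0 * v 1 +
      σ 2 1 * (v 4 / 2 + v 6 / 2) := by
    intro v
    have : ∑ t, rsK σ τ 2 t * v t = (τ 2 0 + τ 2 1) * (σ 2 0 * v 1 +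
      σ 2 1 * (v 4 / 2 + v 6 / 2)) := by
      simp [rsK, rsD, Fin.sum_univ_succ]
      ring
    rw [this, s2]; ring
  have ev3 : ∀ v : Fin 7 → ℝ, ∑ t, rsK σ τ 3 t * v t = v 3 := by
    intro v
    have : ∑ t, rsK σ τ 3 t * v t = (τ 3 0 + τ 3 1) * (σ 3 0 + σ 3 1) * v 3 := by
      simp [rsK, rsD, Fin.sum_univ_succ, -mul_eq_mul_right_iff]
      ring
    rw [this, s3, u3]; ring
  have ev4 : ∀ v : Fin 7 → ℝ, ∑ t, rsK σ τ 4 t * v t = v 4 := by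
    intro v
    have : ∑ t, rsK σ τ 4 t * v t = (τ 4 0 + τ 4 1) * (σ 4 0 + σ 4 1) * v 4 := by
      simp [rsK, rsD, Fin.sum_univ_succ, -mul_eq_mul_right_iff]
      ring
    rw [this, s4, u4]; ring
  have ev5 : ∀ v : Fin 7 → ℝ, ∑ t, rsK σ τ 5 t * v t = v 5 := by
    intro v
    have : ∑ t, rsK σ τ 5 t * v t = (τ 5 0 + τ 5 1) * (σ 5 0 + σ 5 1) * v 5 := by
      simp [rsK, rsD, Fin.sum_univ_succ, -mul_eq_mul_right_iff]
      ring
    rw [this, s5, u5]; ring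
  have ev6 : ∀ v : Fin 7 → ℝ, ∑ t, rsK σ τ 6 t * v t = v 6 := by
    intro v
    have : ∑ t, rsK σ τ 6 t * v t = (τ 6 0 + τ 6 1) * (σ 6 0 + σ 6 1) * v 6 := by
      simp [rsK, rsD, Fin.sum_univ_succ, -mul_eq_mul_right_iff]
      ring
    rw [this, s6, u6]; ring
  have a00 := hσ 1 0
  have a01 := hσ 1 1
  have b00 := hτ 1 0
  have b01 := hτ 1 1
  have c00 := hσ 2 0
  have c01 := hσ 2 1
  -- minimality in terms of two values
  rcases hT with ⟨rfl, rfl, rfl⟩ | ⟨rfl, rfl, rfl⟩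
  · have hmin' : ∀ v1 v2 : ℝ, 0 ≤ v1 → 0 ≤ v2 →
        σ 1 0 * τ 1 0 * v1 + σ 1 1 * τ 1 0 * (1/4) + σ 1 0 * τ 1 1 * (v2 / 2 + 1 / 2) ≤ v1 →
        σ 2 0 * v1 + σ 2 1 * (1/2) ≤ v2 → ∀ s, W s ≤ (![v1 + v2, v1, v2, 1, 1, 0, 0] : Fin 7 → ℝ) s := by
      intro v1 v2 hv1 hv2 h1' h2'
      apply hmin
      · intro s
        fin_cases s <;> simp [hv1, hv2, add_nonneg]
      · intro s hs
        rcases hs with rfl | hs
        · simp
        · rw [Set.mem_singleton_iff] at hs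
          subst hs
          simp
      · intro s hs
        fin_cases s
        · show ∑ t, rsK σ τ 0 t * _ ≤ _
          rw [ev0]
          simp
          linarith
        · show ∑ t, rsK σ τ 1 t * _ ≤ _
          rw [ev1]
          simp
          linarith
        · show ∑ t, rsK σ τ 2 t * _ ≤ _
          rw [ev2]
          simp
          linarith
        · show ∑ t, rsK σ τ 3 t * _ ≤ _
          rw [ev3]
          simp
        · show ∑ t, rsK σ τ 4 t * _ ≤ _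
          rw [ev4]
          simp
        · show ∑ t, rsK σ τ 5 t * _ ≤ _
          rw [ev5]
          simp
        · show ∑ t, rsK σ τ 6 t * _ ≤ _
          rw [ev6]
          simp
    have w3 : W 3 = 1 := hT1 3 (by simp)
    have w4 : W 4 = 1 := hT1 4 (by simp)
    have hb := hmin' 1 1 (by norm_num) (by norm_num) (by nlinarith [mul_nonneg a01 b00, mul_nonneg a00 b01, mul_nonneg a00 b00, mul_nonneg a01 b01]) (by nlinarith)
    have w5 : W 5 = 0 := le_antisymm (by have := hb 5; simpa using this) (h0 5)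
    have w6 : W 6 = 0 := le_antisymm (by have := hb 6; simpa using this) (h0 6)
    refine ⟨W 0, W 1, W 2, hsup 0, ?_, h0 1, h1 1, h0 2, h1 2, ?_, ?_, ?_⟩
    · rw [hfix 0 (by simp), ev0]
    · conv_lhs => rw [hfix 1 (by simp), ev1]
      rw [w3, w5, w6]; ring
    · conv_lhs => rw [hfix 2 (by simp), ev2]
      rw [w4, w6]; ring
    · intro v1 v2 hv1 hv2 h1' h2'
      have h := hmin' v1 v2 hv1 hv2 h1' h2'
      exact ⟨by simpa using h 1, by simpa using h 2⟩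
  · have hmin' : ∀ v1 v2 : ℝ, 0 ≤ v1 → 0 ≤ v2 →
        σ 1 0 * τ 1 0 * v1 + σ 1 1 * τ 1 0 * (3/4) + σ 1 0 * τ 1 1 * (v2 / 2 + 1 / 2) ≤ v1 →
        σ 2 0 * v1 + σ 2 1 * 0 ≤ v2 → ∀ s, W s ≤ (![v1 + v2, v1, v2, 1, 0, 1, 0] : Fin 7 → ℝ) s := by
      intro v1 v2 hv1 hv2 h1' h2'
      apply hmin
      · intro s
        fin_cases s <;> simp [hv1, hv2, add_nonneg]
      · intro s hs
        rcases hs with rfl | hs
        · simp
        · rw [Set.mem_singleton_iff] at hs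
          subst hs
          simp
      · intro s hs
        fin_cases s
        · show ∑ t, rsK σ τ 0 t * _ ≤ _
          rw [ev0]
          simp
          linarith
        · show ∑ t, rsK σ τ 1 t * _ ≤ _
          rw [ev1]
          simp
          linarith
        · show ∑ t, rsK σ τ 2 t * _ ≤ _
          rw [ev2]
          simp
          linarith
        · show ∑ t, rsK σ τ 3 t * _ ≤ _
          rw [ev3]
          simp
        · show ∑ t, rsK σ τ 4 t * _ ≤ _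
          rw [ev4]
          simp
        · show ∑ t, rsK σ τ 5 t * _ ≤ _
          rw [ev5]
          simp
        · show ∑ t, rsK σ τ 6 t * _ ≤ _
          rw [ev6]
          simp
    have w3 : W 3 = 1 := hT1 3 (by simp)
    have w5 : W 5 = 1 := hT1 5 (by simp)
    have hb := hmin' 1 1 (by norm_num) (by norm_num) (by nlinarith [mul_nonneg a01 b00, mul_nonneg a00 b01, mul_nonneg a00 b00, mul_nonneg a01 b01]) (by nlinarith)
    have w4 : W 4 = 0 := le_antisymm (by have := hb 4; simpa using this) (h0 4)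
    have w6 : W 6 = 0 := le_antisymm (by have := hb 6; simpa using this) (h0 6)
    refine ⟨W 0, W 1, W 2, hsup 0, ?_, h0 1, h1 1, h0 2, h1 2, ?_, ?_, ?_⟩
    · rw [hfix 0 (by simp), ev0]
    · conv_lhs => rw [hfix 1 (by simp), ev1]
      rw [w3, w5, w6]; ring
    · conv_lhs => rw [hfix 2 (by simp), ev2]
      rw [w4, w6]; ring
    · intro v1 v2 hv1 hv2 h1' h2'
      have h := hmin' v1 v2 hv1 hv2 h1' h2'
      exact ⟨by simpa using h 1, by simpa using h 2⟩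

end Pool.Agent.H781R3
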