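import Mathlib

/-! The numerical core of the counterexample. -/

set_option autoImplicit false

namespace Pool.Agent.H781R3

/-- Player 2 never quits. -/
theorem rs_num0 (x q w0 w1 w2 l0 l1 l2 w0' w1' w2' l0' l1' l2' : ℝ)
    (a1 : 0 ≤ x) (a1' : x ≤ 1) (c0 : 0 ≤ q)
    (e0 : w0 = (w1 + w2) / 2) (e2 : w2 = q * w1 + (1 - q) * (1/2))
    (hmin : ∀ v1 v2 : ℝ, 0 ≤ v1 → 0 ≤ v2 → (1 - x) * v1 + x * (1/4) ≤ v1 →
      q * v1 + (1 - q) * (1/2) ≤ v2 → w1 ≤ v1 ∧ w2 ≤ v2)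
    (f0 : l0 = (l1 + l2) / 2) (f1 : l1 = (1 - x) * l1 + x * (3/4)) (f2 : l2 = q * l1)
    (g0 : w0' ≤ w0 + 1/100) (g1 : w0' = (w1' + w2') / 2) (g2 : w1' = 1/4) (g3 : w2' = 1/2)
    (k0 : l0 ≤ l0' + 1/100) (k1 : l0' = (l1' + l2') / 2)
    (k2 : ∀ v1 v2 : ℝ, 0 ≤ v1 → 0 ≤ v2 → (1 - x) * (v2 / 2 + 1 / 2) ≤ v1 →
      q * v1 ≤ v2 → l1' ≤ v1 ∧ l2' ≤ v2) : False := by
  obtain ⟨m1, m2⟩ := hmin (1/4) (1/2) (by norm_num) (by norm_num) (by linarith) (by linarith)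
  have hw2 : w2 ≤ 1/2 - q/4 := by nlinarith
  have hq : q ≤ 8/100 := by linarith
  have hw1 : 23/100 ≤ w1 := by linarith
  have hx : 0 < x := by
    rcases a1.eq_or_lt with hx | hx
    · subst hx
      obtain ⟨n1, n2⟩ := hmin 0 (1/2) (by norm_num) (by norm_num) (by linarith) (by linarith)
      linarith
    · exact hx
  have hl1 : l1 = 3/4 := by
    have : x * (l1 - 3/4) = 0 := by linarith
    rcases mul_eq_zero.mp this with h | h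
    · linarith
    · linarith
  have hl2 : l2 = q * (3/4) := by rw [f2, hl1]
  obtain ⟨n1, n2⟩ := k2 (55/100) (5/100) (by norm_num) (by norm_num) (by linarith) (by linarith)
  linarith

/-- Player 2 quits with positive probability `y`. -/
theorem rs_num1 (x y q w0 w1 w2 l0 l1 l2 w0' w1' w2' l0' l1' l2' : ℝ)
    (a1 : 0 ≤ x) (a1' : x ≤ 1) (b1 : 0 < y) (b1' : y ≤ 1) (c0 : 0 ≤ q) (c1 : q ≤ 1)
    (p1 : 0 ≤ l1) (p2 : 0 ≤ l2)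
    (e0 : w0 = (w1 + w2) / 2)
    (hmin : ∀ v1 v2 : ℝ, 0 ≤ v1 → 0 ≤ v2 →
      (1 - x) * (1 - y) * v1 + x * (1 - y) * (1/4) + (1 - x) * y * (v2 / 2 + 1 / 2) ≤ v1 →
      q * v1 + (1 - q) * (1/2) ≤ v2 → w1 ≤ v1 ∧ w2 ≤ v2)
    (f0 : l0 = (l1 + l2) / 2)
    (f1 : l1 = (1 - x) * (1 - y) * l1 + x * (1 - y) * (3/4) + (1 - x) * y * (l2 / 2 + 1 / 2))
    (f2 : l2 = q * l1)
    (g0 : w0' ≤ w0 + 1/100) (g1 : w0' = (w1' + w2') / 2)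
    (g2 : w1' = (1 - y) * w1' + y * (w2' / 2 + 1 / 2)) (g3 : w2' = w1')
    (k0 : l0 ≤ l0' + 1/100) (k1 : l0' = (l1' + l2') / 2)
    (k2 : ∀ v1 v2 : ℝ, 0 ≤ v1 → 0 ≤ v2 → (1 - x) * v1 + x * (3/4) ≤ v1 →
      q * v1 ≤ v2 → l1' ≤ v1 ∧ l2' ≤ v2) : False := by
  rw [g3] at g1 g2
  have hw1' : w1' = 1 := by
    have : y * (w1' - 1) = 0 := by linarith
    rcases mul_eq_zero.mp this with h | h
    · linarith
    · linarith
  obtain ⟨n1, n2⟩ := k2 (3/4) (3/4) (by norm_num) (by norm_num) (by linarith) (by linarith)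
  have h8 : 0 ≤ x * (1 - y) := mul_nonneg a1 (by linarith)
  obtain ⟨m1, m2⟩ := hmin ((1 + l1)/2) ((1 + l2)/2) (by linarith) (by linarith)
    (by nlinarith) (by nlinarith)
  linarith

end Pool.Agent.H781R3
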