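import Mathlib

/-!
Values of finite Markov chains with a reachability objective, as suprema of the iterates of the
one-step operator.
-/

set_option autoImplicit false

namespace Pool.Agent.H781R3

open Filter Topology

variable {S : Type} [Fintype S]

/-- One step operator given by a linear positive map `L`. -/
noncomputable def stepOp (L : (S → ℝ) → S → ℝ) (T : Set S) (x : S → ℝ) : S → ℝ :=
  T.indicator (fun _ => (1 : ℝ)) + Tᶜ.indicator (L x)

theorem stepOp_mem (L : (S → ℝ) → S → ℝ) (T : Set S) (x : S → ℝ) {s : S} (hs : s ∈ T) :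
    stepOp L T x s = 1 := by
  classical
  simp [stepOp, hs]

theorem stepOp_notMem (L : (S → ℝ) → S → ℝ) (T : Set S) (x : S → ℝ) {s : S} (hs : s ∉ T) :
    stepOp L T x s = L x s := by
  classical
  simp [stepOp, hs]

/-- The key facts about the value function defined as the supremum of iterates. -/
theorem val_spec (L : (S → ℝ) → S → ℝ) (T : Set S) (x0 : S → ℝ)
    (hmono : ∀ x y : S → ℝ, (∀ s, x s ≤ y s) → ∀ s, L x s ≤ L y s)
    (hone : ∀ s, L (fun _ => 1) s ≤ 1)
    (hzero : ∀ s, 0 ≤ L (fun _ => 0) s)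
    (hcont : ∀ (x : ℕ → S → ℝ) (y : S → ℝ), (∀ s, Tendsto (fun n => x n s) atTop (𝓝 (y s))) →
      ∀ s, Tendsto (fun n => L (x n) s) atTop (𝓝 (L y s)))
    (hx0 : ∀ s, 0 ≤ x0 s) (hx1 : ∀ s, x0 s ≤ 1) (hxT : ∀ s, x0 s ≤ stepOp L T x0 s)
    (hx2 : ∀ v : S → ℝ, (∀ s, 0 ≤ v s) → (∀ s ∈ T, 1 ≤ v s) → ∀ s, x0 s ≤ v s) :
    ∃ W : S → ℝ, (∀ s, (⨆ n : ℕ, (stepOp L T)^[n] x0 s) = W s) ∧
      (∀ s, Tendsto (fun n => (stepOp L T)^[n] x0 s) atTop (𝓝 (W s))) ∧
      (∀ n s, (stepOp L T)^[n] x0 s ≤ W s) ∧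
      (∀ s, 0 ≤ W s) ∧ (∀ s, W s ≤ 1) ∧ (∀ s ∈ T, W s = 1) ∧ (∀ s, s ∉ T → W s = L W s) ∧
      (∀ v : S → ℝ, (∀ s, 0 ≤ v s) → (∀ s ∈ T, 1 ≤ v s) → (∀ s, s ∉ T → L v s ≤ v s) →
        ∀ s, W s ≤ v s) := by
  classical
  set F := stepOp L T with hF
  have Fmono : ∀ x y : S → ℝ, (∀ s, x s ≤ y s) → ∀ s, F x s ≤ F y s := by
    intro x y hxy s
    by_cases hs : s ∈ T
    · rw [hF, stepOp_mem L T x hs, stepOp_mem L T y hs]
    · rw [hF, stepOp_notMem L T x hs, stepOp_notMem L T y hs]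
      exact hmono x y hxy s
  have itmono : ∀ n s, F^[n] x0 s ≤ F^[n+1] x0 s := by
    intro n
    induction n with
    | zero => intro s; simpa using hxT s
    | succ n ih =>
      intro s
      rw [Function.iterate_succ_apply', Function.iterate_succ_apply']
      exact Fmono _ _ ih s
  have hle1 : ∀ n s, F^[n] x0 s ≤ 1 := by
    intro n
    induction n with
    | zero => intro s; simpa using hx1 s
    | succ n ih =>
      intro s
      rw [Function.iterate_succ_apply']
      by_cases hs : s ∈ T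
      · rw [hF, stepOp_mem L T _ hs]
      · rw [hF, stepOp_notMem L T _ hs]
        exact (hmono _ (fun _ => 1) ih s).trans (hone s)
  have hge0 : ∀ n s, 0 ≤ F^[n] x0 s := by
    intro n
    induction n with
    | zero => intro s; simpa using hx0 s
    | succ n ih =>
      intro s
      rw [Function.iterate_succ_apply']
      by_cases hs : s ∈ T
      · rw [hF, stepOp_mem L T _ hs]; norm_num
      · rw [hF, stepOp_notMem L T _ hs]
        exact (hzero s).trans (hmono (fun _ => 0) _ ih s)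
  have hbdd : ∀ s, BddAbove (Set.range fun n => F^[n] x0 s) := by
    intro s
    refine ⟨1, ?_⟩
    rintro _ ⟨n, rfl⟩
    exact hle1 n s
  have hM : ∀ s, Monotone (fun n => F^[n] x0 s) := fun s => monotone_nat_of_le_succ (fun n => itmono n s)
  have hlim : ∀ s, Tendsto (fun n => F^[n] x0 s) atTop (𝓝 (⨆ n : ℕ, F^[n] x0 s)) := fun s =>
    tendsto_atTop_ciSup (hM s) (hbdd s)
  refine ⟨fun s => ⨆ n : ℕ, F^[n] x0 s, fun s => rfl, hlim, fun n s => le_ciSup (hbdd s) n, ?_, ?_, ?_, ?_, ?_⟩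
  · intro s
    exact (hge0 0 s).trans (le_ciSup (hbdd s) 0)
  · intro s
    exact ciSup_le (fun n => hle1 n s)
  · intro s hs
    apply le_antisymm
    · exact ciSup_le (fun n => hle1 n s)
    · have h1 := le_ciSup (hbdd s) 1
      have h2 : F^[1] x0 s = 1 := by
        rw [Function.iterate_one, hF, stepOp_mem L T _ hs]
      rw [h2] at h1
      exact h1
  · intro s hs
    have h1 : Tendsto (fun n => F^[n+1] x0 s) atTop (𝓝 (⨆ n : ℕ, F^[n] x0 s)) :=
      (hlim s).comp (tendsto_add_atTop_nat 1)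
    have h2 : Tendsto (fun n => F^[n+1] x0 s) atTop
        (𝓝 (L (fun s => ⨆ n : ℕ, F^[n] x0 s) s)) := by
      have h3 := hcont (fun n => F^[n] x0) _ hlim s
      refine h3.congr (fun n => ?_)
      rw [Function.iterate_succ_apply', hF, stepOp_notMem L T _ hs]
    exact tendsto_nhds_unique h1 h2
  · intro v hv0 hvT hv s
    refine ciSup_le (fun n => ?_)
    have : ∀ n s, F^[n] x0 s ≤ v s := by
      intro n
      induction n with
      | zero => intro s; simpa using hx2 v hv0 hvT s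
      | succ n ih =>
        intro s
        rw [Function.iterate_succ_apply']
        by_cases hs : s ∈ T
        · rw [hF, stepOp_mem L T _ hs]; exact hvT s hs
        · rw [hF, stepOp_notMem L T _ hs]
          exact (hmono _ _ ih s).trans (hv s hs)
    exact this n s

/-- Kernel version, starting from `0`. -/
theorem val_spec_kernel (K : S → S → ℝ) (hK0 : ∀ s t, 0 ≤ K s t) (hK1 : ∀ s, ∑ t, K s t = 1)
    (T : Set S) :
    ∃ W : S → ℝ, (∀ s, (⨆ n : ℕ, (fun x : S → ℝ => T.indicator (fun _ => (1 : ℝ)) +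
              Tᶜ.indicator (fun s => ∑ t, K s t * x t))^[n] 0 s) = W s) ∧
      (∀ s, 0 ≤ W s) ∧ (∀ s, W s ≤ 1) ∧ (∀ s ∈ T, W s = 1) ∧
      (∀ s, s ∉ T → W s = ∑ t, K s t * W t) ∧
      (∀ v : S → ℝ, (∀ s, 0 ≤ v s) → (∀ s ∈ T, 1 ≤ v s) → (∀ s, s ∉ T → ∑ t, K s t * v t ≤ v s) →
        ∀ s, W s ≤ v s) := by
  classical
  obtain ⟨W, h1, -, -, h2, h3, h4, h5, h6⟩ := val_spec (fun x s => ∑ t, K s t * x t) T 0
    (fun x y hxy s => Finset.sum_le_sum (fun t _ => mul_le_mul_of_nonneg_left (hxy t) (hK0 s t)))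
    (fun s => by simp [hK1])
    (fun s => by simp)
    (fun x y h s => tendsto_finsetSum _ (fun t _ => (h t).const_mul _))
    (fun s => le_rfl) (fun s => by simp)
    (fun s => by
      by_cases hs : s ∈ T
      · rw [stepOp_mem _ _ _ hs]; simp
      · rw [stepOp_notMem _ _ _ hs]; simp)
    (fun v hv0 _ s => hv0 s)
  exact ⟨W, h1, h2, h3, h4, h5, h6⟩

end Pool.Agent.H781R3
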